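import Pool.Agent.Hhelper67.Anosov.Unipotent

/-!
Word length and norm for discrete cocompact subgroups of `SL(2, ℝ)`.
-/

namespace Pool.Agent.Hhelper67.Anosov

open Filter Topology Set
open scoped Pointwise

variable {Γ : Type*} [Group Γ] {φ : Γ →* X}

/-- squared Frobenius norm -/
def nm (g : X) : ℝ := g 0 0 ^ 2 + g 0 1 ^ 2 + (g 1 0 ^ 2 + g 1 1 ^ 2)

lemma nm_ge (g : X) : 2 ≤ nm g := by
  have hd := det_X g
  unfold nm
  nlinarith [sq_nonneg (g 0 0 - g 1 1), sq_nonneg (g 0 1 + g 1 0)]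

lemma one_le_cols (g : X) :
    1 ≤ (g 0 0 ^ 2 + g 1 0 ^ 2) * (g 0 1 ^ 2 + g 1 1 ^ 2) := by
  have hd := det_X g
  nlinarith [sq_nonneg (g 0 0 * g 0 1 + g 1 0 * g 1 1)]

/-- a compact neighbourhood of the identity -/
def box : Set X := {g | ∀ i j, g i j ∈ Icc (-3 : ℝ) 3}

lemma isCompact_box : IsCompact box := by
  have h1 : IsCompact (Set.pi univ fun _ : Fin 2 => Set.pi univ fun _ : Fin 2 =>
      Icc (-3 : ℝ) 3) :=
    isCompact_univ_pi fun _ => isCompact_univ_pi fun _ => isCompact_Icc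
  have h2 := isClosedEmbedding_X.isCompact_preimage
    (K := (Set.pi univ fun _ : Fin 2 => Set.pi univ fun _ : Fin 2 => Icc (-3 : ℝ) 3)) h1
  convert h2 using 1
  ext g
  exact ⟨fun h i _ j _ => h i j, fun h i j => h i trivial j trivial⟩

lemma one_mem_box : (1 : X) ∈ box := by
  obtain ⟨⟨h1, h2⟩, h3, h4⟩ := X_one
  intro i j
  fin_cases i <;> fin_cases j
  · change (1 : X) 0 0 ∈ _
    rw [h1]
    norm_num
  · change (1 : X) 0 1 ∈ _
    rw [h2]
    norm_num
  · change (1 : X) 1 0 ∈ _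
    rw [h3]
    norm_num
  · change (1 : X) 1 1 ∈ _
    rw [h4]
    norm_num

lemma mem_box {g : X} (h00 : |g 0 0| ≤ 3) (h01 : |g 0 1| ≤ 3) (h10 : |g 1 0| ≤ 3)
    (h11 : |g 1 1| ≤ 3) : g ∈ box := by
  intro i j
  fin_cases i <;> fin_cases j
  · exact abs_le.mp h00
  · exact abs_le.mp h01
  · exact abs_le.mp h10
  · exact abs_le.mp h11

/-- diagonal one-parameter group -/
noncomputable def dge (s : ℝ) : X := dg (Real.exp s) (Real.exp_ne_zero s)

lemma dge_add (s t : ℝ) : dge (s + t) = dge s * dge t := by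
  apply X_ext <;> simp [dge, X_mul, Real.exp_add, mul_comm]

lemma dge_zero : dge 0 = 1 := by
  obtain ⟨⟨h1, h2⟩, h3, h4⟩ := X_one
  apply X_ext <;> simp only [h1, h2, h3, h4, dge, dg_00, dg_01, dg_10, dg_11, Real.exp_zero, inv_one]

lemma dge_nsmul (n : ℕ) (s : ℝ) : dge s ^ n = dge (n * s) := by
  induction n with
  | zero => simp [dge_zero]
  | succ n ih =>
    rw [pow_succ, ih, ← dge_add]
    congr 1
    push_cast
    ring

lemma dge_mem_box {s : ℝ} (hs : |s| ≤ 1) : dge s ∈ box := by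
  have he : ∀ t : ℝ, t ≤ 1 → Real.exp t ≤ 3 := fun t ht =>
    (Real.exp_le_exp.mpr ht).trans (by
      have := Real.exp_one_lt_d9
      linarith)
  rw [abs_le] at hs
  apply mem_box
  · rw [dge, dg_00, abs_of_pos (Real.exp_pos _)]
    exact he _ hs.2
  · rw [dge, dg_01]
    norm_num
  · rw [dge, dg_10]
    norm_num
  · rw [dge, dg_11, ← Real.exp_neg, abs_of_pos (Real.exp_pos _)]
    exact he _ (by linarith [hs.1])

lemma dge_conj_up (s y : ℝ) : dge s * up y * dge (-s) = up (y * Real.exp (2 * s)) := by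
  have h1 : Real.exp (-s) = (Real.exp s)⁻¹ := Real.exp_neg s
  have h2 : Real.exp (2 * s) = Real.exp s * Real.exp s := by
    rw [← Real.exp_add]
    congr 1
    ring
  have h3 := Real.exp_ne_zero s
  apply X_ext <;> simp only [X_mul, dge, dg_00, dg_01, dg_10, dg_11, up_00, up_01, up_10, up_11,
    h1, h2] <;> field_simp <;> ring

/-- rotation with given first column -/
noncomputable def rot (a c : ℝ) (h : a ^ 2 + c ^ 2 = 1) : X := ⟨!![a, -c; c, a], by
  rw [Matrix.det_fin_two_of]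
  linear_combination h⟩

@[simp] lemma rot_00 (a c : ℝ) (h) : rot a c h 0 0 = a := rfl
@[simp] lemma rot_01 (a c : ℝ) (h) : rot a c h 0 1 = -c := rfl
@[simp] lemma rot_10 (a c : ℝ) (h) : rot a c h 1 0 = c := rfl
@[simp] lemma rot_11 (a c : ℝ) (h) : rot a c h 1 1 = a := rfl

lemma rot_mem_box (a c : ℝ) (h : a ^ 2 + c ^ 2 = 1) : rot a c h ∈ box := by
  have ha : |a| ≤ 1 := abs_le_one_iff_mul_self_le_one.mpr (by nlinarith [sq_nonneg c])
  have hc : |c| ≤ 1 := abs_le_one_iff_mul_self_le_one.mpr (by nlinarith [sq_nonneg a])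
  apply mem_box <;> simp only [rot_00, rot_01, rot_10, rot_11, abs_neg] <;> linarith

/-- Every element is a product of boundedly many elements of the box, logarithmically in the
norm. -/
lemma exists_chain (g : X) : ∃ l : List X, (l.length : ℝ) ≤ 3 * Real.log (nm g) + 6 ∧
    (∀ q ∈ l, q ∈ box) ∧ l.prod = g := by
  have hnm := nm_ge g
  have hd := det_X g
  have hcol := one_le_cols g
  set r2 := g 0 0 ^ 2 + g 1 0 ^ 2 with hr2
  have hr2pos : 0 < r2 := by
    rcases (show 0 ≤ r2 by positivity).eq_or_lt with h | h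
    · rw [← h] at hcol
      linarith
    · exact h
  set r := Real.sqrt r2 with hr
  have hrpos : 0 < r := Real.sqrt_pos.mpr hr2pos
  have hrr : r ^ 2 = r2 := Real.sq_sqrt hr2pos.le
  set n := ⌈Real.log (nm g)⌉₊ with hn
  have hlog0 : 0 ≤ Real.log (nm g) := Real.log_nonneg (by linarith)
  have hn1 : Real.log (nm g) ≤ n := Nat.le_ceil _
  have hn2 : (n : ℝ) < Real.log (nm g) + 1 := Nat.ceil_lt_add_one hlog0
  have hnmexp : nm g ≤ Real.exp n := by
    rw [← Real.log_le_iff_le_exp (by linarith)]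
    exact hn1
  set s := Real.log r with hs
  have hsr : Real.exp s = r := Real.exp_log hrpos
  -- bounds for s
  have hr2le : r2 ≤ nm g := by
    rw [hr2]
    unfold nm
    nlinarith [sq_nonneg (g 0 1), sq_nonneg (g 1 1)]
  have hr2ge : 1 ≤ r2 * nm g := by
    have : g 0 1 ^ 2 + g 1 1 ^ 2 ≤ nm g := by
      unfold nm
      nlinarith [sq_nonneg (g 0 0), sq_nonneg (g 1 0)]
    calc (1 : ℝ) ≤ r2 * (g 0 1 ^ 2 + g 1 1 ^ 2) := hcol
      _ ≤ r2 * nm g := by gcongr
  have h2s : 2 * s = Real.log r2 := by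
    rw [← hrr, Real.log_pow]
    push_cast
    ring
  have hsle : |s| ≤ n := by
    rw [abs_le]
    have h1 : Real.log r2 ≤ Real.log (nm g) := Real.log_le_log hr2pos hr2le
    have h2 : 0 ≤ Real.log r2 + Real.log (nm g) := by
      rw [← Real.log_mul hr2pos.ne' (by linarith)]
      exact Real.log_nonneg hr2ge
    constructor <;> linarith
  set x := g 0 0 * g 0 1 + g 1 0 * g 1 1 with hx
  have hxle : |x| ≤ Real.exp (2 * n) := by
    have h1 : |x| ≤ nm g := by
      rw [abs_le]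
      unfold nm
      constructor <;> nlinarith [sq_nonneg (g 0 0 + g 0 1), sq_nonneg (g 0 0 - g 0 1),
        sq_nonneg (g 1 0 + g 1 1), sq_nonneg (g 1 0 - g 1 1), sq_nonneg (g 0 0), sq_nonneg (g 0 1),
        sq_nonneg (g 1 0), sq_nonneg (g 1 1)]
    refine h1.trans (hnmexp.trans (Real.exp_le_exp.mpr ?_))
    have : (0 : ℝ) ≤ n := Nat.cast_nonneg n
    linarith
  have hrot : (g 0 0 / r) ^ 2 + (g 1 0 / r) ^ 2 = 1 := by
    rw [div_pow, div_pow, ← add_div, hrr, ← hr2]
    exact div_self hr2pos.ne'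
  have hdec : g = rot (g 0 0 / r) (g 1 0 / r) hrot * (up x * dge s) := by
    have hrne := hrpos.ne'
    have e1 : g 0 0 ^ 2 + g 1 0 ^ 2 = r ^ 2 := by rw [hrr]
    apply X_ext <;> simp only [X_mul, rot_00, rot_01, rot_10, rot_11, up_00, up_01, up_10, up_11,
      dge, dg_00, dg_01, dg_10, dg_11, hsr, hx]
    · field_simp
      ring
    · field_simp
      linear_combination (-g 0 1) * e1 - (g 1 0) * hd
    · field_simp
      ring
    · field_simp
      linear_combination (-g 1 1) * e1 + (g 0 0) * hd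
  refine ⟨rot (g 0 0 / r) (g 1 0 / r) hrot :: (List.replicate n (dge 1) ++
    (up (x * Real.exp (-(2 * n))) :: (List.replicate n (dge (-1)) ++
      List.replicate (n + 1) (dge (s / (n + 1)))))), ?_, ?_, ?_⟩
  · simp only [List.length_cons, List.length_append, List.length_replicate]
    push_cast
    linarith
  · intro q hq
    simp only [List.mem_cons, List.mem_append, List.mem_replicate] at hq
    rcases hq with rfl | ⟨-, rfl⟩ | rfl | ⟨-, rfl⟩ | ⟨-, rfl⟩
    · exact rot_mem_box _ _ _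
    · exact dge_mem_box (by norm_num)
    · apply mem_box
      · norm_num
      · rw [up_01, abs_mul, abs_of_pos (Real.exp_pos _), Real.exp_neg,
          mul_inv_le_iff₀ (Real.exp_pos _)]
        have := Real.exp_pos (2 * (n : ℝ))
        linarith
      · norm_num
      · norm_num
    · exact dge_mem_box (by norm_num)
    · apply dge_mem_box
      have hn0 : (0 : ℝ) < n + 1 := by positivity
      rw [abs_div, abs_of_pos hn0, div_le_one hn0]
      linarith
  · simp only [List.prod_cons, List.prod_append, List.prod_replicate, dge_nsmul]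
    have e1 : ((n : ℝ) * 1) = n := mul_one _
    have e2 : ((n : ℝ) * (-1)) = -n := by ring
    have e3 : (((n + 1 : ℕ) : ℝ) * (s / (n + 1))) = s := by
      have hn0 : (n : ℝ) + 1 ≠ 0 := by positivity
      push_cast
      field_simp
    have e4 := dge_conj_up n (x * Real.exp (-(2 * n)))
    have e5 : x * Real.exp (-(2 * n)) * Real.exp (2 * n) = x := by
      rw [mul_assoc, ← Real.exp_add]
      simp
    rw [e5] at e4
    rw [e1, e2, e3]
    conv_rhs => rw [hdec]
    rw [← e4]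
    simp only [mul_assoc]

/-- words exist -/
lemma wordLen_spec {S : Finset Γ} (hS : Subgroup.closure (S : Set Γ) = ⊤) (γ : Γ) :
    ∃ l : List Γ, l.length = wordLen S γ ∧ (∀ s ∈ l, s ∈ S ∨ s⁻¹ ∈ S) ∧ l.prod = γ := by
  have h : γ ∈ Subgroup.closure (S : Set Γ) := by
    rw [hS]
    trivial
  rw [← Subgroup.mem_toSubmonoid, Subgroup.closure_toSubmonoid] at h
  obtain ⟨l, hl1', hl2⟩ := Submonoid.exists_list_of_mem_closure h
  have hl1 : ∀ s ∈ l, s ∈ S ∨ s⁻¹ ∈ S := by
    intro s hs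
    rcases hl1' s hs with h | h
    · exact Or.inl h
    · exact Or.inr h
  have hne : {n | ∃ l : List Γ, l.length = n ∧ (∀ s ∈ l, s ∈ S ∨ s⁻¹ ∈ S) ∧ l.prod = γ}.Nonempty :=
    ⟨l.length, l, rfl, hl1, hl2⟩
  exact Nat.sInf_mem hne

lemma wordLen_le {S : Finset Γ} {γ : Γ} (l : List Γ) (hl : ∀ s ∈ l, s ∈ S ∨ s⁻¹ ∈ S)
    (hp : l.prod = γ) : wordLen S γ ≤ l.length := Nat.sInf_le ⟨l, rfl, hl, hp⟩

lemma wordLen_mul {S : Finset Γ} (hS : Subgroup.closure (S : Set Γ) = ⊤) (a b : Γ) :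
    wordLen S (a * b) ≤ wordLen S a + wordLen S b := by
  obtain ⟨l, h1, h2, h3⟩ := wordLen_spec hS a
  obtain ⟨l', h1', h2', h3'⟩ := wordLen_spec hS b
  have := wordLen_le (S := S) (γ := a * b) (l ++ l') (by
    intro s hs
    rcases List.mem_append.mp hs with h | h
    · exact h2 s h
    · exact h2' s h) (by rw [List.prod_append, h3, h3'])
  rwa [List.length_append, h1, h1'] at this

/-- The word length is at most logarithmic in the norm. -/
theorem milnor (hinj : Function.Injective φ) (hdisc : DiscreteTopology φ.range)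
    (hcoc : CompactSpace (X ⧸ φ.range)) {S : Finset Γ} (hS : Subgroup.closure (S : Set Γ) = ⊤) :
    ∃ C c : ℝ, 0 < C ∧ 0 < c ∧ ∀ γ, C * Real.exp (c * wordLen S γ) ≤ nm (φ γ) := by
  obtain ⟨K, hK, hcov⟩ := exists_compact_cover hcoc
  set K' : Set X := insert 1 K with hK'
  have hK'c : IsCompact K' := hK.insert 1
  have hfin := finite_of_compact hinj hdisc (K := K' * box * K'⁻¹) ((hK'c.mul isCompact_box).mul hK'c.inv)
  obtain ⟨M0, hM0⟩ : ∃ M : ℕ, ∀ γ : Γ, φ γ ∈ K' * box * K'⁻¹ → wordLen S γ ≤ M := by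
    obtain ⟨M, hM⟩ := (hfin.image (wordLen S)).bddAbove
    exact ⟨M, fun γ hγ => hM ⟨γ, hγ, rfl⟩⟩
  set M := M0 + 1 with hMdef
  have hM : ∀ γ : Γ, φ γ ∈ K' * box * K'⁻¹ → wordLen S γ ≤ M := fun γ hγ =>
    (hM0 γ hγ).trans (Nat.le_succ _)
  have step : ∀ (η η' : Γ) (p q : X), q ∈ box → (φ η)⁻¹ * p ∈ K' → (φ η')⁻¹ * (p * q) ∈ K' →
      wordLen S (η⁻¹ * η') ≤ M := by
    intro η η' p q hq h1 h2
    apply hM
    refine ⟨(φ η)⁻¹ * p * q, ⟨_, h1, _, hq, rfl⟩, ((φ η')⁻¹ * (p * q))⁻¹,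
      Set.inv_mem_inv.mpr h2, ?_⟩
    rw [map_mul, map_inv]
    group
  have main : ∀ (l : List X), (∀ q ∈ l, q ∈ box) → ∀ (η η' : Γ) (p : X), (φ η)⁻¹ * p ∈ K' →
      (φ η')⁻¹ * (p * l.prod) ∈ K' → wordLen S (η⁻¹ * η') ≤ M * (l.length + 1) := by
    intro l
    induction l with
    | nil =>
      intro _ η η' p h1 h2
      simp only [List.prod_nil] at h2
      have := step η η' p 1 one_mem_box h1 h2
      simpa using this
    | cons q l ih =>
      intro hl η η' p h1 h2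
      obtain ⟨γ₁, hγ₁⟩ := hcov (p * q)
      have h3 : (φ γ₁⁻¹)⁻¹ * (p * q) ∈ K' := by
        rw [map_inv, inv_inv]
        exact Set.mem_insert_of_mem _ hγ₁
      have h4 := step η γ₁⁻¹ p q (hl q (by simp)) h1 h3
      have h5 := ih (fun q' hq' => hl q' (by simp [hq'])) γ₁⁻¹ η' (p * q) h3 (by
        rw [List.prod_cons, ← mul_assoc p] at h2
        exact h2)
      have h6 := wordLen_mul hS (η⁻¹ * γ₁⁻¹) (γ₁⁻¹⁻¹ * η')
      have e : η⁻¹ * γ₁⁻¹ * (γ₁⁻¹⁻¹ * η') = η⁻¹ * η' := by group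
      rw [e] at h6
      rw [List.length_cons]
      calc wordLen S (η⁻¹ * η') ≤ M + M * (l.length + 1) := h6.trans (add_le_add h4 h5)
        _ = M * (l.length + 1 + 1) := by ring
  have hMpos : (0 : ℝ) < M := by
    rw [hMdef]
    positivity
  refine ⟨Real.exp (-3), 1 / (3 * M), Real.exp_pos _, by positivity, fun γ => ?_⟩
  obtain ⟨l, hl1, hl2, hl3⟩ := exists_chain (φ γ)
  have h1 := main l hl2 1 γ 1 (by simp [hK']) (by
    rw [one_mul, hl3, inv_mul_cancel]
    exact Set.mem_insert _ _)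
  rw [inv_one, one_mul] at h1
  have hnm := nm_ge (φ γ)
  have h2 : (wordLen S γ : ℝ) ≤ M * (3 * Real.log (nm (φ γ)) + 7) := by
    calc (wordLen S γ : ℝ) ≤ ((M * (l.length + 1) : ℕ) : ℝ) := by exact_mod_cast h1
      _ = M * (l.length + 1) := by push_cast; ring
      _ ≤ M * (3 * Real.log (nm (φ γ)) + 7) :=
          mul_le_mul_of_nonneg_left (by linarith) hMpos.le
  have h3 : 1 / (3 * M) * (wordLen S γ : ℝ) ≤ Real.log (nm (φ γ)) + 7 / 3 := by
    rw [div_mul_eq_mul_div, one_mul, div_le_iff₀ (by positivity)]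
    calc (wordLen S γ : ℝ) ≤ M * (3 * Real.log (nm (φ γ)) + 7) := h2
      _ = (Real.log (nm (φ γ)) + 7 / 3) * (3 * M) := by ring
  calc Real.exp (-3) * Real.exp (1 / (3 * M) * (wordLen S γ : ℝ))
      = Real.exp (-3 + 1 / (3 * M) * (wordLen S γ : ℝ)) := (Real.exp_add _ _).symm
    _ ≤ Real.exp (Real.log (nm (φ γ))) := by
        apply Real.exp_le_exp.mpr
        linarith
    _ = nm (φ γ) := Real.exp_log (by linarith)

end Pool.Agent.Hhelper67.Anosov
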