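import Pool.Agent.Hhelper67.Anosov.Norms
import Pool.Agent.Hhelper67.Anosov.Milnor
import Pool.Agent.Hhelper63.Anosov.Singular

/-!
Singular values in `SL(3, ℂ)`, and the Anosov property of `ρ₃` and `ρ₂ ⊕ ρ₁`.
-/

namespace Pool.Agent.Hhelper67.Anosov

open Set Module

variable {Γ : Type*} [Group Γ] {φ : Γ →* X}

/-- the linear map of a matrix -/
noncomputable def lin (A : SL3) : V →ₗ[ℂ] V := Matrix.toEuclideanLin A.1

lemma lin_apply (A : SL3) (v : V) : lin A v = op A v := rfl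

lemma finrank_V : finrank ℂ V = 3 := by simp

lemma prod_sv (A : SL3) : sv A 1 * sv A 2 * sv A 3 = 1 := by
  have h1 := LinearMap.normDet_eq_prod_singularValues (lin A)
  rw [LinearMap.normDet_eq_norm_det, finrank_V] at h1
  have h2 : LinearMap.det (lin A) = 1 := by
    unfold lin
    rw [Matrix.toEuclideanLin_eq_toLin_orthonormal, LinearMap.det_toLin, A.2]
  rw [h2] at h1
  simp only [norm_one, Finset.prod_range_succ, Finset.prod_range_zero, one_mul] at h1
  exact h1.symm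

lemma sv_nonneg (A : SL3) (k : ℕ) : 0 ≤ sv A k := LinearMap.singularValues_nonneg _ _

lemma sv_pos (A : SL3) : 0 < sv A 1 ∧ 0 < sv A 2 ∧ 0 < sv A 3 := by
  have h := prod_sv A
  have h1 := sv_nonneg A 1
  have h2 := sv_nonneg A 2
  have h3 := sv_nonneg A 3
  refine ⟨h1.lt_of_ne' ?_, h2.lt_of_ne' ?_, h3.lt_of_ne' ?_⟩ <;>
  · intro h0
    rw [h0] at h
    simp at h

lemma sv_one (A : SL3) : sv A 1 = N A := by
  apply le_antisymm
  · set x := Pool.Agent.Hhelper63.Anosov.svb (lin A) finrank_V 0 with hx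
    have h1 := Pool.Agent.Hhelper63.Anosov.le_norm_map_of_orthogonal (lin A) finrank_V (k := 0)
      (x := x) (by
        intro i hi
        rw [hx]
        exact (Pool.Agent.Hhelper63.Anosov.svb (lin A) finrank_V).inner_eq_zero (by
          intro h
          rw [h] at hi
          exact absurd hi (by simp)))
    have h2 : ‖x‖ = 1 := (Pool.Agent.Hhelper63.Anosov.svb (lin A) finrank_V).norm_eq_one 0
    rw [h2, mul_one] at h1
    have h3 : ‖lin A x‖ ≤ N A * ‖x‖ := op_le A x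
    rw [h2, mul_one] at h3
    exact h1.trans h3
  · apply ContinuousLinearMap.opNorm_le_bound _ (sv_nonneg _ _)
    intro v
    exact Pool.Agent.Hhelper63.Anosov.norm_map_le_of_orthogonal (lin A) finrank_V (k := 0)
      (x := v) (by
        intro i hi
        exact absurd hi (by simp))

lemma sv_three (A : SL3) : sv A 3 = (N A⁻¹)⁻¹ := by
  have hN := N_pos A⁻¹
  apply le_antisymm
  · rw [le_inv_comm₀ (sv_pos A).2.2 hN]
    apply ContinuousLinearMap.opNorm_le_bound _ (inv_nonneg.mpr (sv_nonneg _ _))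
    intro v
    rw [← div_eq_inv_mul, le_div_iff₀ (sv_pos A).2.2]
    have h1 := Pool.Agent.Hhelper63.Anosov.le_norm_map_of_orthogonal (lin A) finrank_V (k := 2)
      (x := op A⁻¹ v) (by
        intro i hi
        have := i.2
        omega)
    rw [lin_apply, op_apply_inv] at h1
    rw [mul_comm]
    exact h1
  · set x := Pool.Agent.Hhelper63.Anosov.svb (lin A) finrank_V 2 with hx
    have h1 := Pool.Agent.Hhelper63.Anosov.norm_map_le_of_orthogonal (lin A) finrank_V (k := 2)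
      (x := x) (by
        intro i hi
        rw [hx]
        exact (Pool.Agent.Hhelper63.Anosov.svb (lin A) finrank_V).inner_eq_zero (by
          intro h
          rw [h] at hi
          exact absurd hi (by simp)))
    have h2 : ‖x‖ = 1 := (Pool.Agent.Hhelper63.Anosov.svb (lin A) finrank_V).norm_eq_one 2
    rw [h2, mul_one] at h1
    have h3 : ‖op A⁻¹ (op A x)‖ ≤ N A⁻¹ * ‖op A x‖ := op_le A⁻¹ _
    rw [op_inv_apply, h2] at h3
    rw [inv_le_iff_one_le_mul₀ hN, mul_comm]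
    refine h3.trans ?_
    exact mul_le_mul_of_nonneg_left h1 hN.le

lemma sv_two (A : SL3) : sv A 2 = N A⁻¹ / N A := by
  have h := prod_sv A
  rw [sv_one, sv_three] at h
  have h1 := N_pos A
  have h2 := N_pos A⁻¹
  field_simp at h ⊢
  linarith

lemma gap_one (A : SL3) : sv A 1 / sv A (1 + 1) = N A ^ 2 / N A⁻¹ := by
  rw [show (1 + 1 : ℕ) = 2 from rfl, sv_one, sv_two]
  have h1 := N_pos A
  have h2 := N_pos A⁻¹
  field_simp

lemma gap_two (A : SL3) : sv A 2 / sv A (2 + 1) = N A⁻¹ ^ 2 / N A := by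
  rw [show (2 + 1 : ℕ) = 3 from rfl, sv_two, sv_three]
  have h1 := N_pos A
  have h2 := N_pos A⁻¹
  field_simp

/-- entries are bounded by the norm -/
lemma entry_le_N (A : SL3) (i j : Fin 3) : ‖A.1 i j‖ ≤ N A := by
  have h1 : op A (EuclideanSpace.single j (1 : ℂ)) i = A.1 i j := by
    rw [op_apply]
    fin_cases j <;> simp
  rw [← h1]
  refine (PiLp.norm_apply_le _ i).trans ((op_le A _).trans ?_)
  simp

/-- the norm is bounded by entries -/
lemma N_le_entries (A : SL3) {M : ℝ} (hM : ∀ i j, ‖A.1 i j‖ ≤ M) : N A ≤ 9 * M := by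
  have hM0 : 0 ≤ M := (norm_nonneg _).trans (hM 0 0)
  apply ContinuousLinearMap.opNorm_le_bound _ (by positivity)
  intro v
  have h1 : ∀ i, ‖op A v i‖ ≤ 3 * M * ‖v‖ := by
    intro i
    rw [op_apply]
    have hv : ∀ j, ‖A.1 i j * v j‖ ≤ M * ‖v‖ := fun j => by
      rw [norm_mul]
      exact mul_le_mul (hM i j) (PiLp.norm_apply_le v j) (norm_nonneg _) hM0
    calc _ ≤ ‖A.1 i 0 * v 0‖ + ‖A.1 i 1 * v 1‖ + ‖A.1 i 2 * v 2‖ := norm_add₃_le
      _ ≤ 3 * M * ‖v‖ := by linarith [hv 0, hv 1, hv 2]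
  have h2 : ‖op A v‖ ^ 2 ≤ (9 * M * ‖v‖) ^ 2 := by
    rw [EuclideanSpace.norm_sq_eq, Fin.sum_univ_three]
    have := h1 0
    have := h1 1
    have := h1 2
    have hp : 0 ≤ 3 * M * ‖v‖ := by positivity
    have e0 : ‖op A v 0‖ ^ 2 ≤ (3 * M * ‖v‖) ^ 2 := pow_le_pow_left₀ (norm_nonneg _) (h1 0) 2
    have e1 : ‖op A v 1‖ ^ 2 ≤ (3 * M * ‖v‖) ^ 2 := pow_le_pow_left₀ (norm_nonneg _) (h1 1) 2
    have e2 : ‖op A v 2‖ ^ 2 ≤ (3 * M * ‖v‖) ^ 2 := pow_le_pow_left₀ (norm_nonneg _) (h1 2) 2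
    nlinarith [sq_nonneg (M * ‖v‖)]
  exact le_of_sq_le_sq h2 (by positivity)

lemma nm_inv (g : X) : nm g⁻¹ = nm g := by
  have h : (g⁻¹ : X).1 = !![g.1 1 1, -g.1 0 1; -g.1 1 0, g.1 0 0] := by
    rw [Matrix.SpecialLinearGroup.coe_inv, Matrix.adjugate_fin_two]
  have h00 : g⁻¹ 0 0 = g 1 1 := by
    rw [h]
    rfl
  have h01 : g⁻¹ 0 1 = -g 0 1 := by
    rw [h]
    rfl
  have h10 : g⁻¹ 1 0 = -g 1 0 := by
    rw [h]
    rfl
  have h11 : g⁻¹ 1 1 = g 0 0 := by
    rw [h]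
    rfl
  unfold nm
  rw [h00, h01, h10, h11]
  ring

lemma norm_toC (A : Matrix.SpecialLinearGroup (Fin 3) ℝ) (i j : Fin 3) :
    ‖(toC A).1 i j‖ = |A.1 i j| := by
  change ‖((A.1 i j : ℝ) : ℂ)‖ = _
  rw [Complex.norm_real, Real.norm_eq_abs]

/-- bounds for `ρ₃` -/
lemma N_sym2 (g : X) : nm g / 4 ≤ N (toC (sym2 g)) ∧ N (toC (sym2 g)) ≤ 9 * nm g := by
  have hs : (sym2 g).1 = sym2Mat g := rfl
  constructor
  · have e : ∀ i j, |sym2Mat g i j| ≤ N (toC (sym2 g)) := by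
      intro i j
      rw [← hs, ← norm_toC]
      exact entry_le_N _ i j
    have e1 : g 0 0 ^ 2 ≤ N (toC (sym2 g)) := (le_abs_self _).trans (e 0 0)
    have e2 : g 0 1 ^ 2 ≤ N (toC (sym2 g)) := (le_abs_self _).trans (e 0 2)
    have e3 : g 1 0 ^ 2 ≤ N (toC (sym2 g)) := (le_abs_self _).trans (e 2 0)
    have e4 : g 1 1 ^ 2 ≤ N (toC (sym2 g)) := (le_abs_self _).trans (e 2 2)
    unfold nm
    linarith
  · apply N_le_entries
    intro i j
    rw [norm_toC, hs]
    have h0 := sq_nonneg (g 0 0)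
    have h1 := sq_nonneg (g 0 1)
    have h2 := sq_nonneg (g 1 0)
    have h3 := sq_nonneg (g 1 1)
    fin_cases i <;> fin_cases j <;> rw [abs_le] <;> unfold nm <;>
      simp [sym2Mat] <;> constructor <;>
      nlinarith [sq_nonneg (g 0 0 + g 0 1), sq_nonneg (g 0 0 - g 0 1), sq_nonneg (g 1 0 + g 1 1),
        sq_nonneg (g 1 0 - g 1 1), sq_nonneg (g 0 0 + g 1 0), sq_nonneg (g 0 0 - g 1 0),
        sq_nonneg (g 0 1 + g 1 1), sq_nonneg (g 0 1 - g 1 1), sq_nonneg (g 0 0 + g 1 1),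
        sq_nonneg (g 0 0 - g 1 1), sq_nonneg (g 0 1 + g 1 0), sq_nonneg (g 0 1 - g 1 0)]

/-- bounds for `ρ₂ ⊕ ρ₁` -/
lemma N_block (g : X) : Real.sqrt (nm g) / 2 ≤ N (toC (block g)) ∧
    N (toC (block g)) ≤ 9 * Real.sqrt (nm g) := by
  have hs : (block g).1 = blockMat g := rfl
  have hnm := nm_ge g
  constructor
  · have e : ∀ i j, |blockMat g i j| ≤ N (toC (block g)) := by
      intro i j
      rw [← hs, ← norm_toC]
      exact entry_le_N _ i j
    have hN := N_nonneg (toC (block g))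
    have e' : ∀ i j, blockMat g i j ^ 2 ≤ N (toC (block g)) ^ 2 := fun i j => by
      rw [← sq_abs (blockMat g i j)]
      exact pow_le_pow_left₀ (abs_nonneg _) (e i j) 2
    have e1 : g 0 0 ^ 2 ≤ N (toC (block g)) ^ 2 := e' 0 0
    have e2 : g 0 1 ^ 2 ≤ N (toC (block g)) ^ 2 := e' 0 1
    have e3 : g 1 0 ^ 2 ≤ N (toC (block g)) ^ 2 := e' 1 0
    have e4 : g 1 1 ^ 2 ≤ N (toC (block g)) ^ 2 := e' 1 1
    have h4 : nm g ≤ (2 * N (toC (block g))) ^ 2 := by
      unfold nm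
      nlinarith
    have h5 := Real.sqrt_le_sqrt h4
    rw [Real.sqrt_sq (by positivity)] at h5
    linarith
  · apply N_le_entries
    intro i j
    rw [norm_toC, hs]
    apply Real.abs_le_sqrt
    have h0 := sq_nonneg (g 0 0)
    have h1 := sq_nonneg (g 0 1)
    have h2 := sq_nonneg (g 1 0)
    have h3 := sq_nonneg (g 1 1)
    fin_cases i <;> fin_cases j <;> simp [blockMat] <;> unfold nm at * <;> linarith

lemma gaps_sym2 (g : X) (k : ℕ) (hk : k ∈ ({1, 2} : Set ℕ)) :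
    nm g / 144 ≤ sv (toC (sym2 g)) k / sv (toC (sym2 g)) (k + 1) := by
  have hnm := nm_ge g
  have h1 := N_sym2 g
  have h2 := N_sym2 g⁻¹
  rw [nm_inv, map_inv, map_inv] at h2
  have hp1 := N_pos (toC (sym2 g))
  have hp2 := N_pos (toC (sym2 g))⁻¹
  rcases hk with rfl | hk
  · rw [gap_one, div_le_div_iff₀ (by norm_num) hp2]
    nlinarith [h1.1, h2.2]
  · rw [mem_singleton_iff.mp hk, gap_two, div_le_div_iff₀ (by norm_num) hp1]
    nlinarith [h2.1, h1.2]

lemma gaps_block (g : X) (k : ℕ) (hk : k ∈ ({1, 2} : Set ℕ)) :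
    Real.sqrt (nm g) / 36 ≤ sv (toC (block g)) k / sv (toC (block g)) (k + 1) := by
  have hnm := nm_ge g
  have hsq : 0 < Real.sqrt (nm g) := Real.sqrt_pos.mpr (by linarith)
  have h1 := N_block g
  have h2 := N_block g⁻¹
  rw [nm_inv, map_inv, map_inv] at h2
  have hp1 := N_pos (toC (block g))
  have hp2 := N_pos (toC (block g))⁻¹
  rcases hk with rfl | hk
  · rw [gap_one, div_le_div_iff₀ (by norm_num) hp2]
    nlinarith [h1.1, h2.2]
  · rw [mem_singleton_iff.mp hk, gap_two, div_le_div_iff₀ (by norm_num) hp1]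
    nlinarith [h2.1, h1.2]

theorem rho3_anosov (S : Finset Γ) (hS : Subgroup.closure (S : Set Γ) = ⊤)
    (hinj : Function.Injective φ) (hdisc : DiscreteTopology φ.range)
    (hcoc : CompactSpace (X ⧸ φ.range)) : IsAnosov S {1, 2} (rho3 φ) := by
  obtain ⟨C, c, hC, hc, h⟩ := milnor hinj hdisc hcoc hS
  refine ⟨C / 144, c, by positivity, hc, fun γ k hk => ?_⟩
  refine le_trans ?_ (gaps_sym2 (φ γ) k hk)
  have := h γ
  rw [div_mul_eq_mul_div]
  gcongr

theorem rho21_anosov (S : Finset Γ) (hS : Subgroup.closure (S : Set Γ) = ⊤)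
    (hinj : Function.Injective φ) (hdisc : DiscreteTopology φ.range)
    (hcoc : CompactSpace (X ⧸ φ.range)) : IsAnosov S {1, 2} (rho21 φ) := by
  obtain ⟨C, c, hC, hc, h⟩ := milnor hinj hdisc hcoc hS
  refine ⟨Real.sqrt C / 36, c / 2, by positivity, by positivity, fun γ k hk => ?_⟩
  refine le_trans ?_ (gaps_block (φ γ) k hk)
  have h1 := Real.sqrt_le_sqrt (h γ)
  rw [Real.sqrt_mul hC.le] at h1
  have h2 : Real.sqrt (Real.exp (c * wordLen S γ)) = Real.exp (c / 2 * wordLen S γ) := by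
    rw [← Real.exp_half]
    congr 1
    ring
  rw [h2] at h1
  rw [div_mul_eq_mul_div]
  gcongr

/-- fewer conditions -/
lemma IsAnosov.mono {d : ℕ} {S : Finset Γ} {θ θ' : Set ℕ}
    {ρ : Γ →* Matrix.SpecialLinearGroup (Fin d) ℂ} (h : IsAnosov S θ ρ) (hθ : θ' ⊆ θ) :
    IsAnosov S θ' ρ := by
  obtain ⟨C, c, hC, hc, h⟩ := h
  exact ⟨C, c, hC, hc, fun γ k hk => h γ k (hθ hk)⟩

theorem rho3_mem (S : Finset Γ) (hS : Subgroup.closure (S : Set Γ) = ⊤)
    (hinj : Function.Injective φ) (hdisc : DiscreteTopology φ.range)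
    (hcoc : CompactSpace (X ⧸ φ.range)) : ⇑(rho3 φ) ∈ anosovSet 3 S {1, 2} :=
  ⟨_, rho3_anosov S hS hinj hdisc hcoc, rfl⟩

theorem rho21_mem (S : Finset Γ) (hS : Subgroup.closure (S : Set Γ) = ⊤)
    (hinj : Function.Injective φ) (hdisc : DiscreteTopology φ.range)
    (hcoc : CompactSpace (X ⧸ φ.range)) : ⇑(rho21 φ) ∈ anosovSet 3 S {1, 2} :=
  ⟨_, rho21_anosov S hS hinj hdisc hcoc, rfl⟩

end Pool.Agent.Hhelper67.Anosov
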