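import Mathlib

/-!
Anosov representations of a finitely generated group in `SL(d, ℂ)` via singular value gaps, and the
two Fuchsian points `ρ₃` and `ρ₂ ⊕ ρ₁` in dimension three.
-/

namespace Pool.Agent.Hhelper67.Anosov

/-- `SL(2, ℝ)` -/
abbrev X := Matrix.SpecialLinearGroup (Fin 2) ℝ

/-- `sv A k` is the `k`-th singular value (`k = 1, 2, …, d`, in non-increasing order) of
`A ∈ SL(d, ℂ)`. -/
noncomputable def sv {d : ℕ} (A : Matrix.SpecialLinearGroup (Fin d) ℂ) (k : ℕ) : ℝ :=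
  (Matrix.toEuclideanLin A.1).singularValues (k - 1)

/-- The word length of `γ` with respect to `S`: the least length of a word in the elements of `S`
and their inverses whose product is `γ`. -/
noncomputable def wordLen {Γ : Type*} [Group Γ] (S : Finset Γ) (γ : Γ) : ℕ :=
  sInf {n | ∃ l : List Γ, l.length = n ∧ (∀ s ∈ l, s ∈ S ∨ s⁻¹ ∈ S) ∧ l.prod = γ}

/-- `ρ` is `θ`-Anosov: there are `C, c > 0` with `σ_k(ρ γ) / σ_{k+1}(ρ γ) ≥ C e^{c|γ|}` for all
`γ` and all `k ∈ θ`. -/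
def IsAnosov {Γ : Type*} [Group Γ] {d : ℕ} (S : Finset Γ) (θ : Set ℕ)
    (ρ : Γ →* Matrix.SpecialLinearGroup (Fin d) ℂ) : Prop :=
  ∃ C c : ℝ, 0 < C ∧ 0 < c ∧ ∀ γ : Γ, ∀ k ∈ θ,
    C * Real.exp (c * wordLen S γ) ≤ sv (ρ γ) k / sv (ρ γ) (k + 1)

/-- The space of `θ`-Anosov representations `Γ → SL(d, ℂ)`, as a subset of the space of all maps
`Γ → SL(d, ℂ)` with the topology of pointwise convergence. -/
def anosovSet {Γ : Type*} [Group Γ] (d : ℕ) (S : Finset Γ) (θ : Set ℕ) :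
    Set (Γ → Matrix.SpecialLinearGroup (Fin d) ℂ) :=
  {f | ∃ ρ : Γ →* Matrix.SpecialLinearGroup (Fin d) ℂ, IsAnosov S θ ρ ∧ ⇑ρ = f}

/-- the matrix of `Sym² g` in the basis `x², xy, y²` -/
def sym2Mat (g : X) : Matrix (Fin 3) (Fin 3) ℝ :=
  !![g 0 0 ^ 2, g 0 0 * g 0 1, g 0 1 ^ 2;
     2 * g 0 0 * g 1 0, g 0 0 * g 1 1 + g 0 1 * g 1 0, 2 * g 0 1 * g 1 1;
     g 1 0 ^ 2, g 1 0 * g 1 1, g 1 1 ^ 2]

/-- the block diagonal matrix with blocks `g` and `1` -/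
def blockMat (g : X) : Matrix (Fin 3) (Fin 3) ℝ :=
  !![g 0 0, g 0 1, 0;
     g 1 0, g 1 1, 0;
     0, 0, 1]

lemma det_X (g : X) : g 0 0 * g 1 1 - g 0 1 * g 1 0 = 1 := by
  have h := g.2
  rw [Matrix.det_fin_two] at h
  exact h

lemma sym2Mat_det (g : X) : (sym2Mat g).det = 1 := by
  have h := det_X g
  rw [Matrix.det_fin_three]
  simp only [sym2Mat, Matrix.of_apply, Matrix.cons_val', Matrix.cons_val_zero, Matrix.cons_val_one,
    Matrix.cons_val_two, Matrix.head_cons, Matrix.tail_cons]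
  have h3 : (g 0 0 * g 1 1 - g 0 1 * g 1 0) ^ 3 = 1 := by rw [h, one_pow]
  linear_combination h3

lemma blockMat_det (g : X) : (blockMat g).det = 1 := by
  have h := det_X g
  rw [Matrix.det_fin_three]
  simp only [blockMat, Matrix.of_apply, Matrix.cons_val', Matrix.cons_val_zero, Matrix.cons_val_one,
    Matrix.cons_val_two, Matrix.head_cons, Matrix.tail_cons]
  linear_combination h

lemma X_one : ((1 : X) 0 0 = 1 ∧ (1 : X) 0 1 = 0) ∧ ((1 : X) 1 0 = 0 ∧ (1 : X) 1 1 = 1) := by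
  refine ⟨⟨?_, ?_⟩, ?_, ?_⟩ <;> simp

lemma X_mul (g h : X) (i j : Fin 2) : (g * h) i j = g i 0 * h 0 j + g i 1 * h 1 j := by
  simp [Matrix.mul_apply, Fin.sum_univ_two]

lemma sym2Mat_one : sym2Mat 1 = 1 := by
  obtain ⟨⟨h1, h2⟩, h3, h4⟩ := X_one
  rw [sym2Mat, h1, h2, h3, h4]
  ext i j
  fin_cases i <;> fin_cases j <;> simp

lemma blockMat_one : blockMat 1 = 1 := by
  obtain ⟨⟨h1, h2⟩, h3, h4⟩ := X_one
  rw [blockMat, h1, h2, h3, h4]
  ext i j
  fin_cases i <;> fin_cases j <;> simp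

lemma sym2Mat_mul (g h : X) : sym2Mat (g * h) = sym2Mat g * sym2Mat h := by
  simp only [sym2Mat, X_mul]
  ext i j
  fin_cases i <;> fin_cases j <;>
    simp [Matrix.mul_apply, Fin.sum_univ_three] <;> ring

lemma blockMat_mul (g h : X) : blockMat (g * h) = blockMat g * blockMat h := by
  simp only [blockMat, X_mul]
  ext i j
  fin_cases i <;> fin_cases j <;>
    simp [Matrix.mul_apply, Fin.sum_univ_three]

/-- the symmetric square of `g` as an element of `SL(3, ℝ)` -/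
def sym2Fun (g : X) : Matrix.SpecialLinearGroup (Fin 3) ℝ := ⟨sym2Mat g, sym2Mat_det g⟩

/-- the block diagonal matrix with blocks `g` and `1` as an element of `SL(3, ℝ)` -/
def blockFun (g : X) : Matrix.SpecialLinearGroup (Fin 3) ℝ := ⟨blockMat g, blockMat_det g⟩

lemma sym2Fun_one : sym2Fun 1 = 1 := Subtype.ext sym2Mat_one

lemma sym2Fun_mul (g h : X) : sym2Fun (g * h) = sym2Fun g * sym2Fun h :=
  Subtype.ext (sym2Mat_mul g h)

lemma blockFun_one : blockFun 1 = 1 := Subtype.ext blockMat_one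

lemma blockFun_mul (g h : X) : blockFun (g * h) = blockFun g * blockFun h :=
  Subtype.ext (blockMat_mul g h)

/-- `ρ₃ : SL(2, ℝ) → SL(3, ℝ)`, the irreducible representation (symmetric square) -/
def sym2 : X →* Matrix.SpecialLinearGroup (Fin 3) ℝ := ⟨⟨sym2Fun, sym2Fun_one⟩, sym2Fun_mul⟩

/-- `ρ₂ ⊕ ρ₁ : SL(2, ℝ) → SL(3, ℝ)` -/
def block : X →* Matrix.SpecialLinearGroup (Fin 3) ℝ := ⟨⟨blockFun, blockFun_one⟩, blockFun_mul⟩

/-- the inclusion of `SL(3, ℝ)` in `SL(3, ℂ)` -/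
noncomputable def toC :
    Matrix.SpecialLinearGroup (Fin 3) ℝ →* Matrix.SpecialLinearGroup (Fin 3) ℂ :=
  Matrix.SpecialLinearGroup.map Complex.ofRealHom

/-- `ρ₃ ∘ φ`, as a representation in `SL(3, ℂ)` -/
noncomputable def rho3 {Γ : Type*} [Group Γ] (φ : Γ →* X) :
    Γ →* Matrix.SpecialLinearGroup (Fin 3) ℂ := toC.comp (sym2.comp φ)

/-- `(ρ₂ ∘ φ) ⊕ (ρ₁ ∘ φ)`, as a representation in `SL(3, ℂ)` -/
noncomputable def rho21 {Γ : Type*} [Group Γ] (φ : Γ →* X) :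
    Γ →* Matrix.SpecialLinearGroup (Fin 3) ℂ := toC.comp (block.comp φ)

end Pool.Agent.Hhelper67.Anosov
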