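import Pool.Agent.Hhelper67.Anosov.Defs

/-!
Basic facts on discrete cocompact subgroups of `SL(2, ℝ)`.
-/

namespace Pool.Agent.Hhelper67.Anosov

open Filter Topology MeasureTheory Set

instance : LocallyCompactSpace (Matrix (Fin 2) (Fin 2) ℝ) :=
  inferInstanceAs (LocallyCompactSpace (Fin 2 → Fin 2 → ℝ))

instance : SecondCountableTopology (Matrix (Fin 2) (Fin 2) ℝ) :=
  inferInstanceAs (SecondCountableTopology (Fin 2 → Fin 2 → ℝ))

lemma isClosedEmbedding_X : IsClosedEmbedding (fun g : X => (g : Matrix (Fin 2) (Fin 2) ℝ)) :=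
  Matrix.SpecialLinearGroup.isClosedEmbedding_val

instance instLocallyCompactX : LocallyCompactSpace X := isClosedEmbedding_X.locallyCompactSpace

instance instT2X : T2Space X := isClosedEmbedding_X.isEmbedding.t2Space

instance instSecondCountableX : SecondCountableTopology X :=
  isClosedEmbedding_X.isEmbedding.secondCountableTopology

variable {Γ : Type*} [Group Γ] {φ : Γ →* X}

/-- Only finitely many group elements lie in a compact set. -/
lemma finite_of_compact (hinj : Function.Injective φ) (hdisc : DiscreteTopology φ.range)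
    {K : Set X} (hK : IsCompact K) : {γ | φ γ ∈ K}.Finite := by
  have h := MonoidHom.tendsto_coe_cofinite_of_discrete hinj
    (isDiscrete_iff_discreteTopology.mpr hdisc)
  have h2 := h hK.compl_mem_cocompact
  rw [mem_map, mem_cofinite] at h2
  convert h2 using 1
  ext γ
  simp

/-- There is a compact set meeting all orbits. -/
lemma exists_compact_cover (hcoc : CompactSpace (X ⧸ φ.range)) :
    ∃ K : Set X, IsCompact K ∧ ∀ g : X, ∃ γ : Γ, φ γ * g ∈ K := by
  have hop : IsOpenMap (QuotientGroup.mk : X → X ⧸ φ.range) := QuotientGroup.isOpenMap_coe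
  have hcover : ∀ x : X, ∃ C : Set X, IsCompact C ∧ C ∈ 𝓝 x := fun x => exists_compact_mem_nhds x
  choose C hC hCx using hcover
  have hU : ∀ q : X ⧸ φ.range, ∃ x : X, QuotientGroup.mk '' (interior (C x)) ∈ 𝓝 q := by
    intro q
    obtain ⟨x, rfl⟩ := QuotientGroup.mk_surjective q
    exact ⟨x, (hop _ isOpen_interior).mem_nhds ⟨x, mem_interior_iff_mem_nhds.mpr (hCx x), rfl⟩⟩
  choose x hx using hU
  obtain ⟨t, -, ht⟩ := isCompact_univ.elim_nhds_subcover
    (fun q => QuotientGroup.mk '' (interior (C (x q)))) (fun q _ => hx q)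
  refine ⟨(⋃ q ∈ t, C (x q))⁻¹, (t.isCompact_biUnion fun q _ => hC _).inv, fun g => ?_⟩
  have h1 : (QuotientGroup.mk g⁻¹ : X ⧸ φ.range) ∈ ⋃ q ∈ t, QuotientGroup.mk '' (interior (C (x q))) :=
    ht (mem_univ _)
  simp only [mem_iUnion] at h1
  obtain ⟨q, hq, y, hy, hyg⟩ := h1
  rw [QuotientGroup.eq] at hyg
  obtain ⟨γ, hγ⟩ := hyg
  refine ⟨γ, ?_⟩
  rw [Set.mem_inv]
  have : (φ γ * g)⁻¹ = y := by
    rw [hγ]
    group
  rw [this]
  exact mem_biUnion hq (interior_subset hy)

end Pool.Agent.Hhelper67.Anosov
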