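import Mathlib

/-!
Operator norms on `SL(3, ℂ)` and an area inequality.
-/

namespace Pool.Agent.Hhelper67.Anosov

open scoped InnerProductSpace ComplexConjugate

/-- `ℂ³` with its standard Hermitian structure -/
abbrev V := EuclideanSpace ℂ (Fin 3)

/-- the group `SL(3, ℂ)` -/
abbrev SL3 := Matrix.SpecialLinearGroup (Fin 3) ℂ

/-- the operator of a matrix -/
noncomputable def op (A : SL3) : V →L[ℂ] V := Matrix.toEuclideanCLM (n := Fin 3) (𝕜 := ℂ) A.1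

/-- the operator norm -/
noncomputable def N (A : SL3) : ℝ := ‖op A‖

lemma op_mul (A B : SL3) : op (A * B) = op A * op B := by
  simp only [op, Matrix.SpecialLinearGroup.coe_mul, map_mul]

lemma op_mul_apply (A B : SL3) (v : V) : op (A * B) v = op A (op B v) := by
  rw [op_mul]
  rfl

lemma op_one : op (1 : SL3) = 1 := by
  simp only [op, Matrix.SpecialLinearGroup.coe_one, map_one]

lemma op_one_apply (v : V) : op (1 : SL3) v = v := by
  rw [op_one]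
  rfl

lemma op_inv_apply (A : SL3) (v : V) : op A⁻¹ (op A v) = v := by
  rw [← op_mul_apply, inv_mul_cancel, op_one_apply]

lemma op_apply_inv (A : SL3) (v : V) : op A (op A⁻¹ v) = v := by
  rw [← op_mul_apply, mul_inv_cancel, op_one_apply]

lemma N_mul (A B : SL3) : N (A * B) ≤ N A * N B := by
  unfold N
  rw [op_mul]
  exact norm_mul_le _ _

lemma N_one : N (1 : SL3) = 1 := by
  unfold N
  rw [op_one]
  exact norm_one

lemma N_nonneg (A : SL3) : 0 ≤ N A := norm_nonneg _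

lemma one_le_N_mul_inv (A : SL3) : 1 ≤ N A * N A⁻¹ := by
  calc (1 : ℝ) = N (A * A⁻¹) := by rw [mul_inv_cancel, N_one]
    _ ≤ N A * N A⁻¹ := N_mul _ _

lemma N_pos (A : SL3) : 0 < N A := by
  rcases (N_nonneg A).eq_or_lt with h | h
  · have := one_le_N_mul_inv A
    rw [← h, zero_mul] at this
    linarith
  · exact h

lemma op_le (A : SL3) (v : V) : ‖op A v‖ ≤ N A * ‖v‖ := (op A).le_opNorm v

/-- cross product -/
noncomputable def cr (v w : V) : V :=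
  !₂[v 1 * w 2 - v 2 * w 1, v 2 * w 0 - v 0 * w 2, v 0 * w 1 - v 1 * w 0]

/-- bilinear dot product -/
def dt (v w : V) : ℂ := v 0 * w 0 + v 1 * w 1 + v 2 * w 2

lemma lagrange (v w : V) : ‖cr v w‖ ^ 2 + ‖⟪v, w⟫_ℂ‖ ^ 2 = ‖v‖ ^ 2 * ‖w‖ ^ 2 := by
  simp only [EuclideanSpace.norm_sq_eq, Fin.sum_univ_three, cr, PiLp.inner_apply, RCLike.inner_apply]
  simp only [PiLp.toLp_apply, Matrix.cons_val_zero, Matrix.cons_val_one, Matrix.cons_val_two,
    Matrix.head_cons, Matrix.tail_cons, Matrix.cons_val]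
  simp only [Complex.sq_norm, Complex.normSq_apply, Complex.add_re, Complex.add_im, Complex.sub_re,
    Complex.sub_im, Complex.mul_re, Complex.mul_im, Complex.conj_re, Complex.conj_im]
  ring

lemma dt_le (v w : V) : ‖dt v w‖ ≤ ‖v‖ * ‖w‖ := by
  have h1 : dt v w = ⟪(WithLp.toLp 2 (fun i => conj (v i)) : V), w⟫_ℂ := by
    simp only [PiLp.inner_apply, RCLike.inner_apply, Fin.sum_univ_three, dt]
    simp [mul_comm]
  have h2 : ‖(WithLp.toLp 2 (fun i => conj (v i)) : V)‖ = ‖v‖ := by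
    simp [EuclideanSpace.norm_eq]
  rw [h1, ← h2]
  exact norm_inner_le_norm _ _

lemma op_apply (A : SL3) (v : V) (i : Fin 3) :
    op A v i = A.1 i 0 * v 0 + A.1 i 1 * v 1 + A.1 i 2 * v 2 := by
  have : op A v = WithLp.toLp 2 (A.1.mulVec (WithLp.ofLp v)) := rfl
  rw [this]
  simp [Matrix.mulVec, dotProduct, Fin.sum_univ_three]

lemma det_eq_one (A : SL3) :
    A.1 0 0 * A.1 1 1 * A.1 2 2 - A.1 0 0 * A.1 1 2 * A.1 2 1 - A.1 0 1 * A.1 1 0 * A.1 2 2 +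
      A.1 0 1 * A.1 1 2 * A.1 2 0 + A.1 0 2 * A.1 1 0 * A.1 2 1 - A.1 0 2 * A.1 1 1 * A.1 2 0
      = 1 := by
  have h := A.2
  rw [Matrix.det_fin_three] at h
  exact h

lemma triple (A : SL3) (u v w : V) : dt (op A u) (cr (op A v) (op A w)) = dt u (cr v w) := by
  have h := det_eq_one A
  have e : dt (op A u) (cr (op A v) (op A w)) =
      (A.1 0 0 * A.1 1 1 * A.1 2 2 - A.1 0 0 * A.1 1 2 * A.1 2 1 - A.1 0 1 * A.1 1 0 * A.1 2 2 +
      A.1 0 1 * A.1 1 2 * A.1 2 0 + A.1 0 2 * A.1 1 0 * A.1 2 1 - A.1 0 2 * A.1 1 1 * A.1 2 0) *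
        dt u (cr v w) := by
    simp only [dt, cr, op_apply, PiLp.toLp_apply, Matrix.cons_val_zero, Matrix.cons_val_one,
      Matrix.cons_val_two, Matrix.head_cons, Matrix.tail_cons, Matrix.cons_val]
    ring
  rw [e, h, one_mul]

lemma cr_op_le (A : SL3) (v w : V) : ‖cr (op A v) (op A w)‖ ≤ N A⁻¹ * ‖cr v w‖ := by
  set x := cr (op A v) (op A w) with hx
  set u : V := WithLp.toLp 2 (fun i => conj (x i)) with hu
  have h1 : dt u x = ((‖x‖ ^ 2 : ℝ) : ℂ) := by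
    simp only [dt, hu, EuclideanSpace.norm_sq_eq, Fin.sum_univ_three, PiLp.toLp_apply]
    push_cast
    simp only [Complex.conj_mul']
  have h2 : ‖u‖ = ‖x‖ := by
    simp [hu, EuclideanSpace.norm_eq]
  have h3 : dt u x = dt (op A⁻¹ u) (cr v w) := by
    rw [← triple A (op A⁻¹ u) v w, op_apply_inv]
  have h4 : ‖x‖ ^ 2 ≤ N A⁻¹ * ‖x‖ * ‖cr v w‖ := by
    calc ‖x‖ ^ 2 = ‖dt u x‖ := by
          rw [h1, Complex.norm_real, Real.norm_of_nonneg (by positivity)]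
      _ = ‖dt (op A⁻¹ u) (cr v w)‖ := by rw [h3]
      _ ≤ ‖op A⁻¹ u‖ * ‖cr v w‖ := dt_le _ _
      _ ≤ (N A⁻¹ * ‖u‖) * ‖cr v w‖ := by
          gcongr
          exact op_le _ _
      _ = N A⁻¹ * ‖x‖ * ‖cr v w‖ := by rw [h2]
  rcases (norm_nonneg x).eq_or_lt with h | h
  · rw [← h]
    exact mul_nonneg (N_nonneg _) (norm_nonneg _)
  · have : ‖x‖ * ‖x‖ ≤ ‖x‖ * (N A⁻¹ * ‖cr v w‖) := by nlinarith
    exact le_of_mul_le_mul_left this h

lemma cr_le (v w : V) : ‖cr v w‖ ≤ ‖v‖ * ‖w‖ := by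
  have h := lagrange v w
  have : ‖cr v w‖ ^ 2 ≤ (‖v‖ * ‖w‖) ^ 2 := by nlinarith [sq_nonneg ‖⟪v, w⟫_ℂ‖]
  exact le_of_sq_le_sq this (by positivity)

lemma vec_ineq (T : V →L[ℂ] V) (p q : V) :
    ‖T p‖ * ‖q‖ ≤ ‖T q‖ * ‖p‖ + 2 * ‖T‖ * ‖cr p q‖ := by
  rcases (norm_nonneg p).eq_or_lt with h0 | h0
  · have hp : p = 0 := norm_eq_zero.mp h0.symm
    rw [hp]
    simp only [map_zero, norm_zero, zero_mul, mul_zero, zero_add]
    positivity
  · set z := ((‖p‖ ^ 2 : ℝ) : ℂ) • q - ⟪p, q⟫_ℂ • p with hz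
    have hz1 : ‖z‖ ^ 2 = (‖p‖ * ‖cr p q‖) ^ 2 := by
      have e1 : ‖z‖ ^ 2 = ‖p‖ ^ 4 * ‖q‖ ^ 2 - ‖p‖ ^ 2 * ‖⟪p, q⟫_ℂ‖ ^ 2 := by
        rw [hz, @norm_sub_sq ℂ, norm_smul, norm_smul, inner_smul_left, inner_smul_right]
        rw [Complex.conj_ofReal, Complex.norm_real, Real.norm_of_nonneg (by positivity)]
        have : RCLike.re (((‖p‖ ^ 2 : ℝ) : ℂ) * (⟪p, q⟫_ℂ * ⟪q, p⟫_ℂ)) =
            ‖p‖ ^ 2 * ‖⟪p, q⟫_ℂ‖ ^ 2 := by
          rw [← inner_conj_symm q p, Complex.mul_conj, ← Complex.ofReal_mul]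
          simp only [Complex.normSq_eq_norm_sq]
          exact Complex.ofReal_re _
        rw [this]
        ring
      rw [e1]
      have := lagrange p q
      nlinarith
    have hz2 : ‖z‖ = ‖p‖ * ‖cr p q‖ := by
      rw [sq_eq_sq₀ (norm_nonneg _) (by positivity)] at hz1
      exact hz1
    have hT : ‖⟪p, q⟫_ℂ‖ * ‖T p‖ ≤ ‖p‖ ^ 2 * ‖T q‖ + ‖T‖ * (‖p‖ * ‖cr p q‖) := by
      have e2 : ⟪p, q⟫_ℂ • T p = ((‖p‖ ^ 2 : ℝ) : ℂ) • T q - T z := by
        rw [hz, map_sub, map_smul, map_smul]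
        abel
      calc ‖⟪p, q⟫_ℂ‖ * ‖T p‖ = ‖⟪p, q⟫_ℂ • T p‖ := (norm_smul _ _).symm
        _ ≤ ‖((‖p‖ ^ 2 : ℝ) : ℂ) • T q‖ + ‖T z‖ := by
            rw [e2]
            exact norm_sub_le _ _
        _ ≤ ‖p‖ ^ 2 * ‖T q‖ + ‖T‖ * (‖p‖ * ‖cr p q‖) := by
            rw [norm_smul, Complex.norm_real, Real.norm_of_nonneg (by positivity), ← hz2]
            gcongr
            exact T.le_opNorm z
    have hin : ‖p‖ * ‖q‖ ≤ ‖⟪p, q⟫_ℂ‖ + ‖cr p q‖ := by
      have := lagrange p q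
      have h5 : (‖p‖ * ‖q‖) ^ 2 ≤ (‖⟪p, q⟫_ℂ‖ + ‖cr p q‖) ^ 2 := by
        nlinarith [mul_nonneg (norm_nonneg ⟪p, q⟫_ℂ) (norm_nonneg (cr p q))]
      exact le_of_sq_le_sq h5 (by positivity)
    have hTp : ‖T p‖ ≤ ‖T‖ * ‖p‖ := T.le_opNorm p
    have key : ‖p‖ * (‖T p‖ * ‖q‖) ≤ ‖p‖ * (‖T q‖ * ‖p‖ + 2 * ‖T‖ * ‖cr p q‖) := by
      have h6 : ‖p‖ * ‖q‖ * ‖T p‖ ≤ (‖⟪p, q⟫_ℂ‖ + ‖cr p q‖) * ‖T p‖ :=
        mul_le_mul_of_nonneg_right hin (norm_nonneg _)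
      have h7 : ‖cr p q‖ * ‖T p‖ ≤ ‖cr p q‖ * (‖T‖ * ‖p‖) :=
        mul_le_mul_of_nonneg_left hTp (norm_nonneg _)
      nlinarith
    exact le_of_mul_le_mul_left key h0

/-- The basic inequality. -/
lemma star_ineq (A B C : SL3) :
    N (A * B) * N (B * C) ≤ N (A * B * C) * N B + 2 * N A * N C * N B⁻¹ := by
  set R := N (A * B * C) * N B + 2 * N A * N C * N B⁻¹ with hR
  have hR0 : 0 ≤ R := by
    have := N_nonneg (A * B * C)
    have := N_nonneg A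
    have := N_nonneg B
    have := N_nonneg C
    have := N_nonneg B⁻¹
    positivity
  have key : ∀ x z : V, ‖op (A * B) x‖ * ‖op (B * C) z‖ ≤ R * ‖x‖ * ‖z‖ := by
    intro x z
    have h1 := vec_ineq (op A) (op B x) (op B (op C z))
    rw [op_mul_apply, op_mul_apply]
    refine h1.trans ?_
    have h2 : ‖op A (op B (op C z))‖ ≤ N (A * B * C) * ‖z‖ := by
      rw [← op_mul_apply, ← op_mul_apply]
      exact op_le _ _
    have h3 : ‖op B x‖ ≤ N B * ‖x‖ := op_le _ _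
    have h4 : ‖cr (op B x) (op B (op C z))‖ ≤ N B⁻¹ * (‖x‖ * (N C * ‖z‖)) := by
      refine (cr_op_le B x (op C z)).trans ?_
      gcongr
      · exact N_nonneg _
      · refine (cr_le _ _).trans ?_
        gcongr
        exact op_le _ _
    have h5 : ‖op A (op B (op C z))‖ * ‖op B x‖ ≤ (N (A * B * C) * ‖z‖) * (N B * ‖x‖) := by
      gcongr
      exact mul_nonneg (N_nonneg _) (norm_nonneg _)
    have h6 : 2 * ‖op A‖ * ‖cr (op B x) (op B (op C z))‖ ≤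
        2 * N A * (N B⁻¹ * (‖x‖ * (N C * ‖z‖))) := by
      change 2 * N A * _ ≤ _
      have := N_nonneg A
      gcongr
    calc _ ≤ (N (A * B * C) * ‖z‖) * (N B * ‖x‖) + 2 * N A * (N B⁻¹ * (‖x‖ * (N C * ‖z‖))) :=
          add_le_add h5 h6
      _ = R * ‖x‖ * ‖z‖ := by
          rw [hR]
          ring
  -- take suprema
  have h1 : ∀ x : V, ‖op (A * B) x‖ * N (B * C) ≤ R * ‖x‖ := by
    intro x
    rcases (norm_nonneg (op (A * B) x)).eq_or_lt with h | h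
    · rw [← h, zero_mul]
      positivity
    · rw [← le_div_iff₀' h]
      apply ContinuousLinearMap.opNorm_le_bound
      · positivity
      · intro z
        have := key x z
        rw [div_mul_eq_mul_div, le_div_iff₀ h]
        linarith
  have h2 : N (A * B) ≤ R / N (B * C) := by
    apply ContinuousLinearMap.opNorm_le_bound
    · exact div_nonneg hR0 (N_nonneg _)
    · intro x
      have := h1 x
      rw [div_mul_eq_mul_div, le_div_iff₀ (N_pos _)]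
      exact this
  rwa [le_div_iff₀ (N_pos _)] at h2

end Pool.Agent.Hhelper67.Anosov
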