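import Pool.Agent.Hhelper67.Anosov.Unipotent

/-!
There is no continuous nonvanishing function on `Γ \ SL(2, ℝ)` which is odd under `-1`.
-/

namespace Pool.Agent.Hhelper67.Anosov

open Filter Topology MeasureTheory Set
open scoped Pointwise Real

variable {Γ : Type*} [Group Γ] {φ : Γ →* X}

/-- argument increment -/
noncomputable def cc (F : X → ℂ) (g h : X) : ℝ := Complex.arg (F (g * h) / F g)

/-- total argument increment along a list -/
noncomputable def Th (F : X → ℂ) : X → List X → ℝ
  | _, [] => 0
  | g, h :: l => cc F g h + Th F (g * h) l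

lemma exp_Th {F : X → ℂ} (hne : ∀ g, F g ≠ 0) (l : List X) : ∀ g : X,
    ((‖F (g * l.prod) / F g‖ : ℝ) : ℂ) * Complex.exp (Th F g l * Complex.I) =
      F (g * l.prod) / F g := by
  induction l with
  | nil =>
    intro g
    simp [Th, hne g]
  | cons h l ih =>
    intro g
    have e1 : F (g * (h :: l).prod) / F g =
        (F (g * h * l.prod) / F (g * h)) * (F (g * h) / F g) := by
      rw [List.prod_cons, ← mul_assoc]
      field_simp [hne g, hne (g * h)]
    have e2 : Complex.exp ((Th F g (h :: l) : ℝ) * Complex.I) =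
        Complex.exp (Th F (g * h) l * Complex.I) * Complex.exp (cc F g h * Complex.I) := by
      rw [← Complex.exp_add]
      congr 1
      simp only [Th]
      push_cast
      ring
    rw [e1, e2, norm_mul]
    have h1 := ih (g * h)
    have h2 := Complex.norm_mul_exp_arg_mul_I (F (g * h) / F g)
    conv_rhs => rw [← h1, ← h2]
    unfold cc
    push_cast
    ring

/-- Data for the argument -/
structure Odd (φ : Γ →* X) (F : X → ℂ) : Prop where
  cont : Continuous F
  ne : ∀ g, F g ≠ 0
  inv : ∀ c g, F (φ c * g) = F g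
  odd : ∀ g, F (-g) = -F g

/-- a small set of increments -/
def Small (F : X → ℂ) (h : X) : Prop := ∀ g : X, 0 < (F (g * h) / F g).re

lemma Odd.eventually_small {F : X → ℂ} (hF : Odd φ F) (hcoc : CompactSpace (X ⧸ φ.range)) :
    ∀ᶠ h in 𝓝 (1 : X), Small F h := by
  obtain ⟨K, hK, hcov⟩ := exists_compact_cover hcoc
  have hcont : Continuous fun p : X × X => (F (p.1 * p.2) / F p.1).re := by
    refine Complex.continuous_re.comp ?_
    exact (hF.cont.comp continuous_mul).div (hF.cont.comp continuous_fst) fun p => hF.ne _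
  have hop : IsOpen {p : X × X | 0 < (F (p.1 * p.2) / F p.1).re} := isOpen_lt continuous_const hcont
  obtain ⟨u, v, hu, hv, hKu, hv1, huv⟩ := generalized_tube_lemma hK (isCompact_singleton (x := (1 : X)))
    hop (by
      rintro ⟨g, h⟩ ⟨_, hh⟩
      simp only [mem_singleton_iff] at hh
      simp [hh, hF.ne g])
  filter_upwards [hv.mem_nhds (hv1 rfl)] with h hh g
  obtain ⟨γ, hγ⟩ := hcov g
  have : (φ γ * g, h) ∈ {p : X × X | 0 < (F (p.1 * p.2) / F p.1).re} := huv ⟨hKu hγ, hh⟩
  simp only [mem_ofPred_eq, mul_assoc, hF.inv] at this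
  exact this

lemma abs_cc {F : X → ℂ} {h : X} (hh : Small F h) (g : X) : |cc F g h| < π / 2 :=
  Complex.abs_arg_lt_pi_div_two_iff.mpr (Or.inl (hh g))

lemma cc_mul {F : X → ℂ} (hne : ∀ g, F g ≠ 0) {h h' : X} (hh : Small F h) (hh' : Small F h')
    (g : X) : cc F g (h * h') = cc F g h + cc F (g * h) h' := by
  have h1 := abs_cc hh g
  have h2 := abs_cc hh' (g * h)
  rw [abs_lt] at h1 h2
  have e1 : F (g * (h * h')) / F g = (F (g * h) / F g) * (F (g * h * h') / F (g * h)) := by
    rw [← mul_assoc]
    field_simp [hne g, hne (g * h)]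
  have := (Complex.arg_mul_eq_add_arg_iff (x := F (g * h) / F g) (y := F (g * h * h') / F (g * h))
    (div_ne_zero (hne _) (hne _)) (div_ne_zero (hne _) (hne _))).mpr (by
      change cc F g h + cc F (g * h) h' ∈ _
      constructor <;> linarith)
  unfold cc
  rw [e1, this]

lemma continuous_cc {F : X → ℂ} (hc : Continuous F) (hne : ∀ g, F g ≠ 0) {P : Type*}
    [TopologicalSpace P] {G h : P → X} (hG : Continuous G) (hh : Continuous h)
    (hs : ∀ p, Small F (h p)) : Continuous fun p => cc F (G p) (h p) := by
  rw [continuous_iff_continuousAt]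
  intro p
  have h1 : ContinuousAt (fun p => F (G p * h p) / F (G p)) p :=
    (((hc.comp (hG.mul hh)).div (hc.comp hG) fun p => hne _).continuousAt)
  have h2 : F (G p * h p) / F (G p) ∈ Complex.slitPlane := Or.inl (hs p (G p))
  exact ContinuousAt.comp (Complex.continuousAt_arg h2) h1

lemma continuous_Th {F : X → ℂ} (hc : Continuous F) (hne : ∀ g, F g ≠ 0) {P : Type*}
    [TopologicalSpace P] (L : List (P → X)) : (∀ f ∈ L, Continuous f ∧ ∀ p, Small F (f p)) →
    ∀ G : P → X, Continuous G → Continuous fun p => Th F (G p) (L.map fun f => f p) := by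
  induction L with
  | nil =>
    intro _ G _
    simp only [List.map_nil, Th]
    exact continuous_const
  | cons f L ih =>
    intro hL G hG
    simp only [List.map_cons, Th]
    have hf := hL f (by simp)
    exact (continuous_cc hc hne hG hf.1 hf.2).add
      (ih (fun f' hf' => hL f' (by simp [hf'])) (fun p => G p * f p) (hG.mul hf.1))

lemma cc_inv {F : X → ℂ} (hi : ∀ c g, F (φ c * g) = F g) (c : Γ) (g h : X) :
    cc F (φ c * g) h = cc F g h := by
  unfold cc
  rw [mul_assoc, hi, hi]

lemma Th_inv {F : X → ℂ} (hi : ∀ c g, F (φ c * g) = F g) (c : Γ) (l : List X) :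
    ∀ g, Th F (φ c * g) l = Th F g l := by
  induction l with
  | nil =>
    intro g
    rfl
  | cons h l ih =>
    intro g
    simp only [Th]
    rw [cc_inv hi, mul_assoc, ih]

/-- averaged increment -/
noncomputable def Av (w : X → ℝ) (F : X → ℂ) (h : X) : ℝ := ∫ g, w g * cc F g h ∂mu

lemma integrable_aux {w f : X → ℝ} (hw : Continuous w) (hw' : HasCompactSupport w)
    (hf : Continuous f) : Integrable (fun g => w g * f g) mu :=
  (hw.mul hf).integrable_of_hasCompactSupport hw'.mul_right

lemma Av_mul (hinj : Function.Injective φ) (hdisc : DiscreteTopology φ.range)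
    {w : X → ℝ} (hw : Weight φ w) {F : X → ℂ} (hF : Odd φ F) {h h' : X} (hh : Small F h)
    (hh' : Small F h') (hr : RInv h) : Av w F (h * h') = Av w F h + Av w F h' := by
  unfold Av
  have c1 : Continuous fun g => cc F g h :=
    continuous_cc hF.cont hF.ne continuous_id continuous_const fun _ => hh
  have c2 : Continuous fun g => cc F g h' :=
    continuous_cc hF.cont hF.ne continuous_id continuous_const fun _ => hh'
  have c3 : Continuous fun g => cc F (g * h) h' :=
    continuous_cc hF.cont hF.ne (continuous_mul_const h) continuous_const fun _ => hh'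
  rw [← hw.average_mul hinj hdisc c2 (fun c g => cc_inv hF.inv c g h') hr,
    ← integral_add (integrable_aux hw.cont hw.supp c1) (integrable_aux hw.cont hw.supp c3)]
  congr 1
  funext g
  rw [cc_mul hF.ne hh hh' g]
  ring

lemma Av_list (hinj : Function.Injective φ) (hdisc : DiscreteTopology φ.range)
    {w : X → ℝ} (hw : Weight φ w) {F : X → ℂ} (hF : Odd φ F) (l : List X) :
    (∀ h ∈ l, Small F h ∧ RInv h) → ∫ g, w g * Th F g l ∂mu = (l.map (Av w F)).sum := by
  induction l with
  | nil =>
    intro _
    simp [Th]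
  | cons h l ih =>
    intro hl
    have hh := hl h (by simp)
    have hl' : ∀ h' ∈ l, Small F h' ∧ RInv h' := fun h' hh' => hl h' (by simp [hh'])
    have c1 : Continuous fun g => cc F g h :=
      continuous_cc hF.cont hF.ne continuous_id continuous_const fun _ => hh.1
    have cT : ∀ G : X → X, Continuous G → Continuous fun g => Th F (G g) l := by
      intro G hG
      have := continuous_Th hF.cont hF.ne (l.map fun h (_ : X) => h) (by
        intro f hf
        simp only [List.mem_map] at hf
        obtain ⟨a, ha, rfl⟩ := hf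
        exact ⟨continuous_const, fun _ => (hl' a ha).1⟩) G hG
      simpa [List.map_map, Function.comp_def] using this
    have c0 : Continuous fun g => Th F g l := cT _ continuous_id
    rw [List.map_cons, List.sum_cons, ← ih hl',
      ← hw.average_mul hinj hdisc c0 (fun c g => Th_inv hF.inv c l g) hh.2]
    unfold Av
    rw [← integral_add (integrable_aux hw.cont hw.supp c1)
      (integrable_aux hw.cont hw.supp (cT _ (continuous_mul_const h)))]
    congr 1
    funext g
    simp only [Th]
    ring

lemma isDiscrete_int : IsDiscrete (range ((↑) : ℤ → ℝ)) :=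
  Int.isClosedEmbedding_coe_real.isInducing.isDiscrete_range

/-- A continuous function on a preconnected space whose exponential is `-1` is constant. -/
lemma const_of_exp {P : Type*} [TopologicalSpace P] [PreconnectedSpace P] {f : P → ℝ}
    (hf : Continuous f) (he : ∀ p, Complex.exp (f p * Complex.I) = -1) (p q : P) : f p = f q := by
  have h1 : ∀ p, (f p - π) / (2 * π) ∈ range ((↑) : ℤ → ℝ) := by
    intro p
    have h2 : Complex.exp (f p * Complex.I) = Complex.exp (π * Complex.I) := by
      rw [he, Complex.exp_pi_mul_I]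
    rw [Complex.exp_eq_exp_iff_exists_int] at h2
    obtain ⟨n, hn⟩ := h2
    refine ⟨n, ?_⟩
    have h3 : (f p : ℂ) = π + n * (2 * π) := by
      have : (f p : ℂ) * Complex.I = (π + n * (2 * π)) * Complex.I := by
        rw [hn]
        ring
      exact mul_right_cancel₀ Complex.I_ne_zero this
    have h4 : f p = π + n * (2 * π) := by exact_mod_cast h3
    rw [h4]
    field_simp
    ring
  have h5 := isPreconnected_univ.constant_of_mapsTo isDiscrete_int
    (f := fun p => (f p - π) / (2 * π)) (by fun_prop) (fun p _ => h1 p) (mem_univ p) (mem_univ q)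
  have h6 : (2 * π) ≠ 0 := by positivity
  field_simp at h5
  linarith

/-- the parameter interval -/
abbrev TI := Icc (1 : ℝ) 4

instance : PreconnectedSpace TI := Subtype.preconnectedSpace isPreconnected_Icc

/-- step functions -/
noncomputable def uf (N : ℕ) (t : ℝ) : X := up (t / N)

/-- step functions -/
noncomputable def lf (N : ℕ) (t : ℝ) : X := lo (-(1 / (t * N)))

/-- the list of steps -/
noncomputable def steps (N : ℕ) : List (ℝ → X) :=
  List.replicate N (uf N) ++ List.replicate N (lf N) ++ List.replicate N (uf N) ++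
    (List.replicate N (uf N) ++ List.replicate N (lf N) ++ List.replicate N (uf N))

lemma up_lo_up (t : ℝ) (ht : t ≠ 0) :
    up t * lo (-(1 / t)) * up t * (up t * lo (-(1 / t)) * up t) = -1 := by
  obtain ⟨⟨h1, h2⟩, h3, h4⟩ := X_one
  have e : ∀ i j : Fin 2, (-1 : X) i j = -((1 : X) i j) := fun i j => by
    simp
  apply X_ext <;> simp only [X_mul, up_00, up_01, up_10, up_11, lo_00, lo_01, lo_10, lo_11, e, h1,
    h2, h3, h4] <;> field_simp <;> ring

lemma steps_prod {N : ℕ} (hN : 0 < N) {t : ℝ} (ht : t ≠ 0) :
    ((steps N).map fun f => f t).prod = -1 := by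
  have hN' : (N : ℝ) ≠ 0 := by positivity
  simp only [steps, List.map_append, List.map_replicate, List.prod_append, List.prod_replicate,
    uf, lf, up_nsmul, lo_nsmul]
  have e1 : (N : ℝ) * (t / N) = t := by field_simp
  have e2 : (N : ℝ) * (-(1 / (t * N))) = -(1 / t) := by field_simp
  rw [e1, e2, up_lo_up t ht]

/-- The main result of this file. -/
theorem no_odd (hinj : Function.Injective φ) (hdisc : DiscreteTopology φ.range)
    (hcoc : CompactSpace (X ⧸ φ.range)) {F : X → ℂ} (hF : Odd φ F) : False := by
  obtain ⟨w, hw⟩ := exists_weight hinj hdisc hcoc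
  have hs := hF.eventually_small hcoc
  -- choose the number of steps
  have hup : ∀ᶠ s in 𝓝 (0 : ℝ), Small F (up s) := by
    have : Tendsto up (𝓝 0) (𝓝 1) := by
      have := continuous_up.tendsto 0
      rwa [up_zero] at this
    exact this.eventually hs
  have hlo : ∀ᶠ s in 𝓝 (0 : ℝ), Small F (lo s) := by
    have : Tendsto lo (𝓝 0) (𝓝 1) := by
      have := continuous_lo.tendsto 0
      rwa [lo_zero] at this
    exact this.eventually hs
  obtain ⟨ε, hε, hball⟩ := Metric.eventually_nhds_iff.mp (hup.and hlo)
  obtain ⟨N, hN⟩ := exists_nat_gt (4 / ε)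
  have hN0 : 0 < N := by
    have : (0 : ℝ) < N := lt_trans (by positivity) hN
    exact_mod_cast this
  have hN0' : (0 : ℝ) < N := by exact_mod_cast hN0
  have h4 : 4 / (N : ℝ) < ε := by
    rw [div_lt_iff₀ hε] at hN
    rw [div_lt_iff₀ hN0']
    linarith
  have hsu : ∀ s : ℝ, |s| ≤ 4 / N → Small F (up s) ∧ Small F (lo s) := by
    intro s hs
    apply hball
    rw [Real.dist_eq, sub_zero]
    linarith
  have hu : ∀ t ∈ Icc (1 : ℝ) 4, Small F (uf N t) := by
    intro t ht
    refine (hsu _ ?_).1
    rw [abs_of_nonneg (div_nonneg (by linarith [ht.1]) hN0'.le)]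
    exact div_le_div_of_nonneg_right ht.2 hN0'.le
  have hl : ∀ t ∈ Icc (1 : ℝ) 4, Small F (lf N t) := by
    intro t ht
    refine (hsu _ ?_).2
    have ht0 : 0 < t := by linarith [ht.1]
    rw [abs_neg, abs_of_nonneg (by positivity), div_le_div_iff₀ (by positivity) hN0']
    nlinarith [ht.1]
  have hsteps : ∀ f ∈ steps N, f = uf N ∨ f = lf N := by
    intro f hf
    simp only [steps, List.mem_append, List.mem_replicate] at hf
    tauto
  -- the total argument is constant
  set L : List (TI × X → X) := (steps N).map fun f => fun p : TI × X => f p.1 with hL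
  have hcuf : Continuous fun p : TI × X => uf N p.1 :=
    continuous_up.comp (by fun_prop)
  have hclf : Continuous fun p : TI × X => lf N p.1 := by
    refine continuous_lo.comp (Continuous.neg (continuous_const.div (by fun_prop) ?_))
    intro p
    have := p.1.2.1
    have : (0 : ℝ) < p.1 := by linarith
    positivity
  have hLc : ∀ f ∈ L, Continuous f ∧ ∀ p, Small F (f p) := by
    intro f hf
    simp only [hL, List.mem_map] at hf
    obtain ⟨f', hf', rfl⟩ := hf
    rcases hsteps f' hf' with rfl | rfl
    · exact ⟨hcuf, fun p => hu _ p.1.2⟩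
    · exact ⟨hclf, fun p => hl _ p.1.2⟩
  have hcont := continuous_Th hF.cont hF.ne L hLc (fun p => p.2) continuous_snd
  have hLmap : ∀ p : TI × X, (L.map fun f => f p) = (steps N).map fun f => f p.1 := by
    intro p
    simp [hL, Function.comp_def]
  have hexp : ∀ p : TI × X, Complex.exp (Th F p.2 (L.map fun f => f p) * Complex.I) = -1 := by
    intro p
    have h1 := exp_Th hF.ne (L.map fun f => f p) p.2
    have hp0 : (p.1 : ℝ) ≠ 0 := by
      have := p.1.2.1
      linarith
    have h2 : F (p.2 * (L.map fun f => f p).prod) / F p.2 = -1 := by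
      rw [hLmap, steps_prod hN0 hp0, mul_neg, mul_one, hF.odd]
      field_simp [hF.ne p.2]
    rw [h2] at h1
    simpa using h1
  have hconst := const_of_exp hcont hexp
  set θ : ℝ := Th F (1 : X) (L.map fun f => f ((⟨1, by norm_num⟩ : TI), (1 : X))) with hθ
  have hint : ∀ t ∈ Icc (1 : ℝ) 4, (((steps N).map fun f => f t).map (Av w F)).sum =
      θ * ∫ g, w g ∂mu := by
    intro t ht
    rw [← Av_list hinj hdisc hw hF]
    · rw [← integral_const_mul]
      congr 1
      funext g
      have := hconst (⟨t, ht⟩, g) (⟨1, by norm_num⟩, 1)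
      simp only at this
      rw [← hθ, hLmap] at this
      rw [this, mul_comm]
    · intro h hh
      simp only [List.mem_map] at hh
      obtain ⟨f, hf, rfl⟩ := hh
      rcases hsteps f hf with rfl | rfl
      · exact ⟨hu t ht, RInv_up _⟩
      · exact ⟨hl t ht, RInv_lo _⟩
  set κ : ℝ := θ * ∫ g, w g ∂mu with hκ
  have hsum : ∀ t ∈ Icc (1 : ℝ) 4, 4 * N * Av w F (uf N t) + 2 * N * Av w F (lf N t) = κ := by
    intro t ht
    rw [← hint t ht]
    simp only [steps, List.map_append, List.map_replicate, List.sum_append, List.sum_replicate,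
      nsmul_eq_mul]
    ring
  have hdu : ∀ s : ℝ, |s| ≤ 4 / N → Av w F (up (s + s)) = 2 * Av w F (up s) := by
    intro s hs
    rw [up_add, Av_mul hinj hdisc hw hF (hsu s hs).1 (hsu s hs).1 (RInv_up s)]
    ring
  have hdl : ∀ s : ℝ, |s| ≤ 4 / N → Av w F (lo (s + s)) = 2 * Av w F (lo s) := by
    intro s hs
    rw [lo_add, Av_mul hinj hdisc hw hF (hsu s hs).2 (hsu s hs).2 (RInv_lo s)]
    ring
  have habs : ∀ a : ℝ, 0 ≤ a → a ≤ 4 → |a / N| ≤ 4 / N := by
    intro a ha ha'
    rw [abs_of_nonneg (by positivity)]
    exact div_le_div_of_nonneg_right ha' hN0'.le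
  set x := Av w F (up (1 / N)) with hx
  set z := Av w F (lo (-((1 / 4) / N))) with hz
  have e1 := hsum 1 (by norm_num)
  have e2 := hsum 2 (by norm_num)
  have e4 := hsum 4 (by norm_num)
  have u1 : Av w F (uf N 1) = x := rfl
  have u2 : Av w F (uf N 2) = 2 * x := by
    rw [hx, ← hdu _ (habs 1 (by norm_num) (by norm_num))]
    unfold uf
    congr 2
    ring
  have u4 : Av w F (uf N 4) = 4 * x := by
    have : Av w F (uf N 4) = 2 * Av w F (uf N 2) := by
      unfold uf
      rw [← hdu _ (habs 2 (by norm_num) (by norm_num))]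
      congr 2
      ring
    rw [this, u2]
    ring
  have l4 : Av w F (lf N 4) = z := by
    unfold lf
    rw [hz]
    congr 3
    field_simp
  have l2 : Av w F (lf N 2) = 2 * z := by
    rw [hz, ← hdl _ (by rw [abs_neg]; exact habs _ (by norm_num) (by norm_num))]
    unfold lf
    congr 2
    field_simp
    ring
  have l1 : Av w F (lf N 1) = 4 * z := by
    have : Av w F (lf N 1) = 2 * Av w F (lf N 2) := by
      have e : lf N 2 = lo (-((1 / 2) / N)) := by
        unfold lf
        congr 1
        field_simp
      rw [e, ← hdl _ (by rw [abs_neg]; exact habs _ (by norm_num) (by norm_num))]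
      unfold lf
      congr 2
      field_simp
      ring
    rw [this, l2]
    ring
  rw [u1, l1] at e1
  rw [u2, l2] at e2
  rw [u4, l4] at e4
  have hκ0 : κ = 0 := by
    have hxz : (N : ℝ) * x = N * z := by linarith
    nlinarith
  have hθ0 : θ = 0 := by
    rcases mul_eq_zero.mp (hκ ▸ hκ0) with h | h
    · exact h
    · exact absurd h hw.integral_pos.ne'
  have := hexp ((⟨1, by norm_num⟩ : TI), (1 : X))
  simp only at this
  rw [← hθ, hθ0] at this
  norm_num at this

end Pool.Agent.Hhelper67.Anosov
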