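import Pool.Agent.Hhelper67.Anosov.Fuchsian

/-!
Averaging over `Γ \ SL(2, ℝ)`.
-/

namespace Pool.Agent.Hhelper67.Anosov

open Filter Topology MeasureTheory Set
open scoped Pointwise

variable {Γ : Type*} [Group Γ] {φ : Γ →* X}

instance instMeasX : MeasurableSpace X := borel X

instance instBorelX : BorelSpace X := ⟨rfl⟩

/-- Haar measure on `SL(2, ℝ)` -/
noncomputable def mu : Measure X := Measure.haar

instance instHaarMu : mu.IsHaarMeasure := by
  unfold mu
  infer_instance

instance instRegMu : mu.Regular := by
  unfold mu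
  infer_instance

/-- right translation by `u` preserves Haar measure -/
def RInv (u : X) : Prop := MeasurePreserving (fun g : X => g * u) mu mu

lemma RInv_of_modular {u : X} (h : Measure.modularCharacterFun u = 1) : RInv u := by
  refine ⟨measurable_mul_const u, ?_⟩
  have := Measure.map_right_mul_eq_modularCharacterFun_smul mu u
  rw [h, one_smul] at this
  exact this

lemma RInv_of_conj {u a : X} {n : ℕ} (hn : 2 ≤ n) (h : a * u * a⁻¹ = u ^ n) : RInv u := by
  apply RInv_of_modular
  have h1 := congrArg (Measure.modularCharacterFun (G := X)) h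
  change Measure.modularCharacter (a * u * a⁻¹) = Measure.modularCharacter (u ^ n) at h1
  rw [map_mul, map_mul, map_pow] at h1
  have h2 : Measure.modularCharacter a * Measure.modularCharacter a⁻¹ = 1 := by
    rw [← map_mul, mul_inv_cancel, map_one]
  have h3 : Measure.modularCharacter u = Measure.modularCharacter u ^ n := by
    calc Measure.modularCharacter u
        = Measure.modularCharacter u * (Measure.modularCharacter a * Measure.modularCharacter a⁻¹) := by
          rw [h2, mul_one]
      _ = Measure.modularCharacter u ^ n := by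
          rw [← h1]
          ring
  have h4 : 0 < Measure.modularCharacter u := Measure.modularCharacterFun_pos u
  have h5 : Measure.modularCharacter u ^ (n - 1) = 1 := by
    have : Measure.modularCharacter u * Measure.modularCharacter u ^ (n - 1) =
        Measure.modularCharacter u * 1 := by
      rw [← pow_succ', mul_one]
      conv_rhs => rw [h3]
      congr 1
      omega
    exact mul_left_cancel₀ h4.ne' this
  exact (pow_eq_one_iff_of_nonneg h4.le (by omega)).mp h5

/-- Unfolding. -/
lemma unfolding (hinj : Function.Injective φ) (hdisc : DiscreteTopology φ.range)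
    {p q : X → ℝ} (hp : Continuous p) (hq : Continuous q) (hp' : HasCompactSupport p)
    (hq' : HasCompactSupport q) :
    ∫ g, p g * (∑ᶠ γ : Γ, q (φ γ * g)) ∂mu = ∫ g, (∑ᶠ γ : Γ, p (φ γ * g)) * q g ∂mu := by
  have hfin := finite_of_compact hinj hdisc (K := tsupport q * (tsupport p)⁻¹)
    (hq'.isCompact.mul hp'.isCompact.inv)
  set T := hfin.toFinset with hT
  have hzero : ∀ γ ∉ T, ∀ g, p g * q (φ γ * g) = 0 := by
    intro γ hγ g
    by_contra hne
    apply hγ
    rw [hT, Set.Finite.mem_toFinset]
    have h1 : g ∈ tsupport p := subset_tsupport _ (by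
      intro h0
      apply hne
      rw [h0, zero_mul])
    have h2 : φ γ * g ∈ tsupport q := subset_tsupport _ (by
      intro h0
      apply hne
      rw [h0, mul_zero])
    refine ⟨φ γ * g, h2, g⁻¹, Set.inv_mem_inv.mpr h1, ?_⟩
    group
  have hl : ∀ g, p g * (∑ᶠ γ : Γ, q (φ γ * g)) = ∑ γ ∈ T, p g * q (φ γ * g) := by
    intro g
    have : p g * (∑ᶠ γ : Γ, q (φ γ * g)) = ∑ᶠ γ : Γ, p g * q (φ γ * g) := by
      by_cases hpg : p g = 0
      · simp [hpg]
      · rw [← smul_eq_mul, smul_finsum]
        rfl
    rw [this]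
    apply finsum_eq_sum_of_support_subset
    intro γ hγ
    by_contra hc
    exact hγ (hzero γ hc g)
  have hr : ∀ g, (∑ᶠ γ : Γ, p (φ γ * g)) * q g = ∑ γ ∈ T, p ((φ γ)⁻¹ * g) * q g := by
    intro g
    have e1 : (∑ᶠ γ : Γ, p (φ γ * g)) = ∑ᶠ γ : Γ, p ((φ γ)⁻¹ * g) := by
      rw [← finsum_comp_equiv (Equiv.inv Γ)]
      simp
    have : (∑ᶠ γ : Γ, p (φ γ * g)) * q g = ∑ᶠ γ : Γ, p ((φ γ)⁻¹ * g) * q g := by
      rw [e1, mul_comm]
      by_cases hpg : q g = 0
      · simp [hpg]
      · rw [← smul_eq_mul, smul_finsum]
        simp only [smul_eq_mul, mul_comm]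
    rw [this]
    apply finsum_eq_sum_of_support_subset
    intro γ hγ
    by_contra hc
    apply hγ
    have := hzero γ hc ((φ γ)⁻¹ * g)
    rwa [mul_inv_cancel_left] at this
  simp only [hl, hr]
  rw [integral_finsetSum, integral_finsetSum]
  · refine Finset.sum_congr rfl fun γ _ => ?_
    rw [← integral_mul_left_eq_self (fun g => p ((φ γ)⁻¹ * g) * q g) (φ γ)]
    simp only [inv_mul_cancel_left]
  · intro γ _
    apply Continuous.integrable_of_hasCompactSupport
    · fun_prop
    · exact hq'.mul_left
  · intro γ _
    apply Continuous.integrable_of_hasCompactSupport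
    · fun_prop
    · exact hp'.mul_right

end Pool.Agent.Hhelper67.Anosov
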