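import Pool.Agent.Hhelper67.Anosov.Weight

/-!
Unipotent elements of `SL(2, ℝ)`; connectedness.
-/

namespace Pool.Agent.Hhelper67.Anosov

open Filter Topology MeasureTheory Set
open scoped Pointwise

/-- upper unipotent -/
def up (s : ℝ) : X := ⟨!![1, s; 0, 1], by simp⟩

/-- lower unipotent -/
def lo (s : ℝ) : X := ⟨!![1, 0; s, 1], by simp⟩

/-- diagonal element -/
noncomputable def dg (s : ℝ) (hs : s ≠ 0) : X := ⟨!![s, 0; 0, s⁻¹], by simp [hs]⟩

lemma X_ext {g h : X} (h00 : g 0 0 = h 0 0) (h01 : g 0 1 = h 0 1) (h10 : g 1 0 = h 1 0)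
    (h11 : g 1 1 = h 1 1) : g = h := by
  apply Subtype.ext
  ext i j
  fin_cases i <;> fin_cases j
  · exact h00
  · exact h01
  · exact h10
  · exact h11

@[simp] lemma up_00 (s : ℝ) : up s 0 0 = 1 := rfl
@[simp] lemma up_01 (s : ℝ) : up s 0 1 = s := rfl
@[simp] lemma up_10 (s : ℝ) : up s 1 0 = 0 := rfl
@[simp] lemma up_11 (s : ℝ) : up s 1 1 = 1 := rfl
@[simp] lemma lo_00 (s : ℝ) : lo s 0 0 = 1 := rfl
@[simp] lemma lo_01 (s : ℝ) : lo s 0 1 = 0 := rfl
@[simp] lemma lo_10 (s : ℝ) : lo s 1 0 = s := rfl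
@[simp] lemma lo_11 (s : ℝ) : lo s 1 1 = 1 := rfl
@[simp] lemma dg_00 (s : ℝ) (hs) : dg s hs 0 0 = s := rfl
@[simp] lemma dg_01 (s : ℝ) (hs) : dg s hs 0 1 = 0 := rfl
@[simp] lemma dg_10 (s : ℝ) (hs) : dg s hs 1 0 = 0 := rfl
@[simp] lemma dg_11 (s : ℝ) (hs) : dg s hs 1 1 = s⁻¹ := rfl

lemma up_add (s t : ℝ) : up (s + t) = up s * up t := by
  apply X_ext <;> simp only [X_mul, up_00, up_01, up_10, up_11] <;> ring

lemma lo_add (s t : ℝ) : lo (s + t) = lo s * lo t := by
  apply X_ext <;> simp only [X_mul, lo_00, lo_01, lo_10, lo_11] <;> ring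

lemma up_zero : up 0 = 1 := by
  obtain ⟨⟨h1, h2⟩, h3, h4⟩ := X_one
  apply X_ext <;> simp only [h1, h2, h3, h4, up_00, up_01, up_10, up_11]

lemma lo_zero : lo 0 = 1 := by
  obtain ⟨⟨h1, h2⟩, h3, h4⟩ := X_one
  apply X_ext <;> simp only [h1, h2, h3, h4, lo_00, lo_01, lo_10, lo_11]

lemma up_nsmul (n : ℕ) (s : ℝ) : up s ^ n = up (n * s) := by
  induction n with
  | zero => simp [up_zero]
  | succ n ih =>
    rw [pow_succ, ih, ← up_add]
    congr 1
    push_cast
    ring

lemma lo_nsmul (n : ℕ) (s : ℝ) : lo s ^ n = lo (n * s) := by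
  induction n with
  | zero => simp [lo_zero]
  | succ n ih =>
    rw [pow_succ, ih, ← lo_add]
    congr 1
    push_cast
    ring

lemma continuous_up : Continuous up := by
  refine isClosedEmbedding_X.isInducing.continuous_iff.mpr ?_
  refine continuous_matrix fun i j => ?_
  fin_cases i <;> fin_cases j
  · exact continuous_const
  · exact continuous_id
  · exact continuous_const
  · exact continuous_const

lemma continuous_lo : Continuous lo := by
  refine isClosedEmbedding_X.isInducing.continuous_iff.mpr ?_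
  refine continuous_matrix fun i j => ?_
  fin_cases i <;> fin_cases j
  · exact continuous_const
  · exact continuous_const
  · exact continuous_id
  · exact continuous_const

lemma RInv_up (s : ℝ) : RInv (up s) := by
  refine RInv_of_conj (a := dg 2 two_ne_zero) (n := 4) (by norm_num) ?_
  rw [mul_inv_eq_iff_eq_mul, up_nsmul]
  apply X_ext <;> simp [X_mul]
  ring

lemma RInv_lo (s : ℝ) : RInv (lo s) := by
  refine RInv_of_conj (a := dg 2⁻¹ (by norm_num)) (n := 4) (by norm_num) ?_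
  rw [mul_inv_eq_iff_eq_mul, lo_nsmul]
  apply X_ext <;> simp [X_mul]
  ring

/-- elements with nonzero lower left entry -/
lemma eq_up_lo_up (g : X) (hc : g 1 0 ≠ 0) :
    g = up ((g 0 0 - 1) / g 1 0) * lo (g 1 0) * up ((g 1 1 - 1) / g 1 0) := by
  have hd := det_X g
  apply X_ext <;> simp only [X_mul, up_00, up_01, up_10, up_11, lo_00, lo_01, lo_10, lo_11]
  · field_simp
    ring
  · field_simp
    linear_combination (-1 : ℝ) * hd
  · ring
  · field_simp
    ring

instance instPreconnectedX : PreconnectedSpace X := by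
  refine ⟨isPreconnected_of_forall 1 ?_⟩
  -- elements with nonzero lower left entry
  have h1 : ∀ g : X, g 1 0 ≠ 0 → ∃ f : ℝ → X, Continuous f ∧ f 0 = 1 ∧ f 1 = g := by
    intro g hg
    refine ⟨fun t => up (t * ((g 0 0 - 1) / g 1 0)) * lo (t * g 1 0) *
      up (t * ((g 1 1 - 1) / g 1 0)), ?_, ?_, ?_⟩
    · exact ((continuous_up.comp (by fun_prop)).mul (continuous_lo.comp (by fun_prop))).mul
        (continuous_up.comp (by fun_prop))
    · simp [up_zero, lo_zero]
    · simp only [one_mul]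
      exact (eq_up_lo_up g hg).symm
  have h2 : ∀ g : X, ∃ f : ℝ → X, Continuous f ∧ f 0 = 1 ∧ f 1 = g := by
    intro g
    by_cases hg : g 1 0 = 0
    · have hd := det_X g
      have h3 : (g * lo 1) 1 0 ≠ 0 := by
        simp only [X_mul, lo_00, lo_10, hg, zero_mul, zero_add, mul_one]
        intro h
        rw [hg, h] at hd
        simp at hd
      obtain ⟨f, hf, hf0, hf1⟩ := h1 _ h3
      refine ⟨fun t => f t * lo (-t), hf.mul (continuous_lo.comp (by fun_prop)), ?_, ?_⟩
      · simp [hf0, lo_zero]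
      · simp only [hf1]
        rw [mul_assoc, ← lo_add]
        simp [lo_zero]
    · exact h1 g hg
  intro g _
  obtain ⟨f, hf, hf0, hf1⟩ := h2 g
  exact ⟨range f, subset_univ _, ⟨0, hf0⟩, ⟨1, hf1⟩, isPreconnected_range hf⟩

end Pool.Agent.Hhelper67.Anosov
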