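import Pool.Agent.Hhelper67.Anosov.Unfold

/-!
An averaging weight for `Γ \ SL(2, ℝ)`.
-/

namespace Pool.Agent.Hhelper67.Anosov

open Filter Topology MeasureTheory Set
open scoped Pointwise

variable {Γ : Type*} [Group Γ] {φ : Γ →* X}

lemma locallyFinite_orbit (hinj : Function.Injective φ) (hdisc : DiscreteTopology φ.range)
    {E : Type*} [Zero E] {q : X → E} (hq' : HasCompactSupport q) :
    LocallyFinite fun γ : Γ => Function.support fun g => q (φ γ * g) := by
  intro x
  obtain ⟨C, hC, hCx⟩ := exists_compact_mem_nhds x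
  refine ⟨C, hCx, ?_⟩
  refine (finite_of_compact hinj hdisc (K := tsupport q * C⁻¹) (hq'.isCompact.mul hC.inv)).subset ?_
  rintro γ ⟨g, hg, hgC⟩
  refine ⟨φ γ * g, subset_tsupport _ hg, g⁻¹, Set.inv_mem_inv.mpr hgC, ?_⟩
  group

lemma finsum_orbit_inv {E : Type*} [AddCommMonoid E] (q : X → E) (c : Γ) (g : X) :
    ∑ᶠ γ : Γ, q (φ γ * (φ c * g)) = ∑ᶠ γ : Γ, q (φ γ * g) := by
  rw [← finsum_comp_equiv (Equiv.mulRight c) (f := fun γ : Γ => q (φ γ * g))]
  simp [mul_assoc]

/-- `w` is a compactly supported averaging weight. -/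
structure Weight (φ : Γ →* X) (w : X → ℝ) : Prop where
  cont : Continuous w
  supp : HasCompactSupport w
  nonneg : ∀ g, 0 ≤ w g
  sum : ∀ g, ∑ᶠ γ : Γ, w (φ γ * g) = 1

lemma exists_weight (hinj : Function.Injective φ) (hdisc : DiscreteTopology φ.range)
    (hcoc : CompactSpace (X ⧸ φ.range)) : ∃ w : X → ℝ, Weight φ w := by
  obtain ⟨K, hK, hcov⟩ := exists_compact_cover hcoc
  obtain ⟨f, hf1, -, hf3, hf4⟩ := exists_continuous_one_zero_of_isCompact hK isClosed_empty
    (disjoint_empty K)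
  have hlf := locallyFinite_orbit (φ := φ) hinj hdisc hf3
  set S : X → ℝ := fun g => ∑ᶠ γ : Γ, f (φ γ * g) with hS
  have hScont : Continuous S := continuous_finsum (fun γ => by fun_prop) hlf
  have hSpos : ∀ g, 0 < S g := by
    intro g
    obtain ⟨γ, hγ⟩ := hcov g
    have h1 : f (φ γ * g) ≤ S g :=
      single_le_finsum (f := fun γ : Γ => f (φ γ * g)) γ (hlf.point_finite g) (fun j => (hf4 _).1)
    have h2 : f (φ γ * g) = 1 := hf1 hγ
    linarith
  have hSinv : ∀ c g, S (φ c * g) = S g := fun c g => finsum_orbit_inv _ c g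
  refine ⟨fun g => f g / S g, ⟨?_, ?_, ?_, ?_⟩⟩
  · exact f.continuous.div hScont fun g => (hSpos g).ne'
  · have : (fun g => f g / S g) = fun g => f g * (S g)⁻¹ := by
      funext g
      exact div_eq_mul_inv _ _
    rw [this]
    exact hf3.mul_right
  · intro g
    exact div_nonneg (hf4 g).1 (hSpos g).le
  · intro g
    simp only [hSinv, div_eq_mul_inv]
    rw [← finsum_mul]
    exact mul_inv_cancel₀ (hSpos g).ne'

/-- The average of an invariant function is invariant under right translations. -/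
lemma Weight.average_mul (hinj : Function.Injective φ) (hdisc : DiscreteTopology φ.range)
    {w : X → ℝ} (hw : Weight φ w) {f : X → ℝ} (hf : Continuous f)
    (hfi : ∀ c g, f (φ c * g) = f g) {u : X} (hu : RInv u) :
    ∫ g, w g * f (g * u) ∂mu = ∫ g, w g * f g ∂mu := by
  have hsupp : HasCompactSupport fun g => w (g * u⁻¹) :=
    hw.supp.comp_homeomorph (Homeomorph.mulRight u⁻¹)
  have hcont : Continuous fun g => w (g * u⁻¹) := hw.cont.comp (continuous_mul_const _)
  have h1 : ∫ g, w g * f (g * u) ∂mu = ∫ g, w (g * u⁻¹) * f g ∂mu := by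
    have := hu.integral_comp (measurableEmbedding_mulRight u) (fun g => w (g * u⁻¹) * f g)
    rw [← this]
    simp only [mul_inv_cancel_right]
  have h2 : ∫ g, w (g * u⁻¹) * f g ∂mu =
      ∫ g, (w (g * u⁻¹) * f g) * (∑ᶠ γ : Γ, w (φ γ * g)) ∂mu := by
    congr 1
    funext g
    rw [hw.sum, mul_one]
  have h4 := unfolding hinj hdisc (p := fun g => w (g * u⁻¹) * f g) (hcont.mul hf) hw.cont
    hsupp.mul_right hw.supp
  rw [h1, h2, h4]
  congr 1
  funext g
  have h3 : ∑ᶠ γ : Γ, w (φ γ * g * u⁻¹) * f (φ γ * g) = f g := by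
    simp only [hfi]
    rw [← finsum_mul]
    have := hw.sum (g * u⁻¹)
    simp only [← mul_assoc] at this
    rw [this, one_mul]
  rw [h3, mul_comm]

lemma Weight.exists_ne {w : X → ℝ} (hw : Weight φ w) : ∃ g, w g ≠ 0 := by
  by_contra hc
  push Not at hc
  have := hw.sum 1
  simp [hc] at this

lemma Weight.integral_pos {w : X → ℝ} (hw : Weight φ w) : 0 < ∫ g, w g ∂mu := by
  obtain ⟨g, hg⟩ := hw.exists_ne
  exact hw.cont.integral_pos_of_hasCompactSupport_nonneg_nonzero hw.supp hw.nonneg hg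

end Pool.Agent.Hhelper67.Anosov
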